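import Pool.Agent.Helper60.SY.Defs

/-!
Project SY (MP_0bd1d1_al): module D1.
-/

namespace SY.D1

open QuadraticMap Module OG

variable {k E : Type*} [Field k] [AddCommGroup E] [Module k E]
  {Q : QuadraticForm k E} {Y Yc Y1 Yc1 Z : Submodule k E} {a t : ℕ} {p : E}

theorem GD_one : (1 : E ≃ₗ[k] E) ∈ GD Q Y Yc :=
  ⟨fun _ => rfl, fun _ _ => rfl, fun _ hy => hy⟩

theorem GD_mul (g h : E ≃ₗ[k] E) (hg : g ∈ GD Q Y Yc) (hh : h ∈ GD Q Y Yc) :
    g * h ∈ GD Q Y Yc := by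
  refine ⟨fun x => ?_, fun z hz => ?_, fun y hy => ?_⟩
  · change Q (g (h x)) = Q x
    rw [hg.1, hh.1]
  · change g (h z) = z
    rw [hh.2.1 z hz, hg.2.1 z hz]
  · exact hg.2.2 _ (hh.2.2 y hy)

theorem GD_inv [FiniteDimensional k E] (g : E ≃ₗ[k] E) (hg : g ∈ GD Q Y Yc) :
    g⁻¹ ∈ GD Q Y Yc := by
  have h1 : ∀ x, g (g⁻¹ x) = x := fun x => g.apply_symm_apply x
  refine ⟨fun x => ?_, fun z hz => ?_, fun y hy => ?_⟩
  · rw [← hg.1 (g⁻¹ x), h1]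
  · apply g.injective
    rw [h1, hg.2.1 z hz]
  · have hle : Y.map (g : E →ₗ[k] E) ≤ Y := by
      rintro _ ⟨x, hx, rfl⟩
      exact hg.2.2 x hx
    have heq : Y.map (g : E →ₗ[k] E) = Y :=
      Submodule.eq_of_le_of_finrank_eq hle (LinearEquiv.finrank_map_eq g Y)
    rw [← heq] at hy
    obtain ⟨x, hx, hxy⟩ := hy
    have h2 : g⁻¹ y = x := by
      apply g.injective
      rw [h1]
      exact hxy.symm
    rw [h2]
    exact hx

theorem GD_mem_iff [FiniteDimensional k E] (g : E ≃ₗ[k] E) (hg : g ∈ GD Q Y Yc) (x : E) :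
    g x ∈ Y ↔ x ∈ Y := by
  refine ⟨fun h => ?_, fun h => hg.2.2 x h⟩
  have h1 := (GD_inv g hg).2.2 _ h
  have h2 : g⁻¹ (g x) = x := g.symm_apply_apply x
  rwa [h2] at h1

theorem GD_polar (g : E ≃ₗ[k] E) (hg : g ∈ GD Q Y Yc) (x y : E) :
    polar Q (g x) (g y) = polar Q x y := by
  unfold polar
  rw [← map_add, hg.1, hg.1, hg.1]

theorem GD_mono (h1 : OD Q Y1 Yc1) (hY : Y1 ≤ Y) (hYc : Yc ≤ Yc1) :
    GD Q Y1 Yc1 ⊆ GD Q Y Yc := by
  intro g hg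
  refine ⟨hg.1, fun z hz => hg.2.1 z (hYc hz), fun y hy => ?_⟩
  have htop : y ∈ Y1 ⊔ Yc1 := by
    rw [h1.compl.sup_eq_top]
    exact Submodule.mem_top
  obtain ⟨y1, hy1, z, hz, rfl⟩ := Submodule.mem_sup.1 htop
  have hz' : z ∈ Y := by
    have := Y.sub_mem hy (hY hy1)
    rwa [add_sub_cancel_left] at this
  rw [map_add, hg.2.1 z hz]
  exact Y.add_mem (hY (hg.2.2 y1 hy1)) hz'

theorem PK_fwd [FiniteDimensional k E] (g : E ≃ₗ[k] E) (hg : g ∈ GD Q Y Yc)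
    (w : Submodule k E × Submodule k E) (hw : w ∈ PK Q Y a t) : g • w ∈ PK Q Y a t := by
  obtain ⟨h1, h2, h3, h4, h5, h6⟩ := hw
  refine ⟨Submodule.map_mono h1, ?_, ?_, ?_, ?_, ?_⟩
  · rintro _ ⟨x, hx, rfl⟩
    exact hg.2.2 x (h2 hx)
  · rw [← h3]
    exact LinearEquiv.finrank_map_eq g w.1
  · rw [← h4]
    exact LinearEquiv.finrank_map_eq g w.2
  · rintro _ ⟨x, hx, rfl⟩
    exact (hg.1 x).trans (h5 x hx)
  · rintro _ ⟨x, hx, rfl⟩ y hy
    have h7 : g (g⁻¹ y) = y := g.apply_symm_apply y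
    have h8 : g⁻¹ y ∈ Y := (GD_inv g hg).2.2 y hy
    have h9 := GD_polar g hg x (g⁻¹ y)
    rw [h7] at h9
    exact h9.trans (h6 x hx _ h8)

theorem PK_stb [FiniteDimensional k E] : Stb (GD Q Y Yc) (PK Q Y a t) := by
  intro g hg w
  refine ⟨fun h => ?_, fun h => PK_fwd g hg w h⟩
  have h1 := PK_fwd g⁻¹ (GD_inv g hg) _ h
  rwa [inv_smul_smul] at h1

theorem Gr_sub_GD (h : OD Q Y Yc) : Gr Q Y ⊆ GD Q Y Yc := by
  intro g hg
  refine ⟨hg.1, fun z hz => hg.2.2 z fun y hy => ?_, fun y hy => ?_⟩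
  · rw [polar_comm]
    exact h.orth y hy z hz
  · have := Y.add_mem (hg.2.1 y) hy
    rwa [sub_add_cancel] at this

theorem tv_mem (h : OD Q Y Yc) (hp : RadS Q Y p) (φ : Dual k E)
    (hφ : φ ∈ Yc.dualAnnihilator) (h0 : φ p = 0) : tv p φ h0 ∈ GD Q Y Yc := by
  refine ⟨fun x => ?_, fun z hz => ?_, fun y hy => ?_⟩
  · have htop : x ∈ Y ⊔ Yc := by
      rw [h.compl.sup_eq_top]
      exact Submodule.mem_top
    have hpx : polar Q x p = 0 := by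
      obtain ⟨y, hy, z, hz, rfl⟩ := Submodule.mem_sup.1 htop
      rw [polar_add_left, polar_comm Q y p, hp.r y hy, polar_comm Q z p, h.orth p hp.mem z hz,
        add_zero]
    rw [tv_apply, QuadraticMap.map_add Q, QuadraticMap.map_smul, hp.q, polar_smul_right, hpx]
    simp
  · rw [tv_apply, (Submodule.mem_dualAnnihilator φ).1 hφ z hz, zero_smul, add_zero]
  · rw [tv_apply]
    exact Y.add_mem hy (Y.smul_mem _ hp.mem)

theorem tv_add (φ φ' : Dual k E) (h : φ p = 0) (h' : φ' p = 0) (h'' : (φ + φ') p = 0) :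
    tv p (φ + φ') h'' = tv p φ h * tv p φ' h' := by
  ext x
  change tv p (φ + φ') h'' x = tv p φ h (tv p φ' h' x)
  rw [tv_apply, tv_apply, tv_apply, map_add, map_smul, h, LinearMap.add_apply]
  simp only [smul_eq_mul, mul_zero, add_zero]
  module

theorem tv_conj (g : E ≃ₗ[k] E) (hgp : g p = p) (φ : Dual k E) (h : φ p = 0)
    (h' : (φ ∘ₗ (g.symm : E →ₗ[k] E)) p = 0) :
    g * tv p φ h * g⁻¹ = tv p (φ ∘ₗ (g.symm : E →ₗ[k] E)) h' := by
  ext x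
  change g (tv p φ h (g.symm x)) = tv p (φ ∘ₗ (g.symm : E →ₗ[k] E)) h' x
  rw [tv_apply, tv_apply, map_add, map_smul, hgp, LinearEquiv.apply_symm_apply]
  rfl

end SY.D1
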