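import Pool.Agent.Helper60.SY.Defs

/-!
Project SY (MP_0bd1d1_al): module D2.
-/

namespace SY.D2

open QuadraticMap Module OG

variable {k E : Type*} [Field k] [AddCommGroup E] [Module k E]
  {Q : QuadraticForm k E} {Y Yc Y1 Yc1 Z : Submodule k E} {a t : ℕ} {p : E}

theorem OD_line [FiniteDimensional k E] (h : OD Q Y Yc) (hp : RadS Q Y p) (hp0 : p ≠ 0) :
    ∃ Y1 : Submodule k E, OD Q Y1 (Yc ⊔ Submodule.span k {p}) ∧ Y1 ≤ Y ∧
      finrank k Y1 + 1 = finrank k Y := by
  obtain ⟨φ, hφ⟩ : ∃ φ : Dual k E, φ p ≠ 0 := by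
    by_contra hcon
    push Not at hcon
    exact hp0 ((Module.forall_dual_apply_eq_zero_iff k p).1 hcon)
  set Y1 : Submodule k E := Y ⊓ LinearMap.ker φ with hY1
  have hle : Y1 ≤ Y := inf_le_left
  have hker : ∀ x ∈ Y1, φ x = 0 := fun x hx => hx.2
  have hdec : ∀ y ∈ Y, y - (φ y / φ p) • p ∈ Y1 := by
    intro y hy
    refine ⟨Y.sub_mem hy (Y.smul_mem _ hp.mem), ?_⟩
    rw [SetLike.mem_coe, LinearMap.mem_ker, map_sub, map_smul, smul_eq_mul,
      div_mul_cancel₀ _ hφ, sub_self]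
  have hsup : Y1 ⊔ Submodule.span k {p} = Y := by
    apply le_antisymm
    · refine sup_le hle ?_
      rw [Submodule.span_singleton_le_iff_mem]
      exact hp.mem
    · intro y hy
      refine Submodule.mem_sup.2 ⟨_, hdec y hy, (φ y / φ p) • p,
        Submodule.smul_mem _ _ (Submodule.mem_span_singleton_self p), sub_add_cancel _ _⟩
  have hinf : Y1 ⊓ Submodule.span k {p} = ⊥ := by
    rw [eq_bot_iff]
    rintro x ⟨hx, hx2⟩
    obtain ⟨c, rfl⟩ := Submodule.mem_span_singleton.1 hx2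
    have h1 := hker _ hx
    rw [map_smul, smul_eq_mul] at h1
    have hc : c = 0 := (mul_eq_zero.1 h1).resolve_right hφ
    rw [hc, zero_smul]
    exact Submodule.zero_mem _
  refine ⟨Y1, ⟨⟨?_, ?_⟩, ?_⟩, hle, ?_⟩
  · rw [Submodule.disjoint_def]
    intro x hx hx2
    obtain ⟨z, hz, u, hu, hzu⟩ := Submodule.mem_sup.1 hx2
    have hzY : z ∈ Y := by
      have huY : u ∈ Y := by
        obtain ⟨c, rfl⟩ := Submodule.mem_span_singleton.1 hu
        exact Y.smul_mem _ hp.mem
      have := Y.sub_mem (hle hx) huY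
      rwa [← hzu, add_sub_cancel_right] at this
    have hz0 : z = 0 := Submodule.disjoint_def.1 h.compl.disjoint z hzY hz
    rw [hz0, zero_add] at hzu
    have h1 : x ∈ Y1 ⊓ Submodule.span k {p} := ⟨hx, hzu ▸ hu⟩
    rw [hinf] at h1
    exact h1
  · rw [codisjoint_iff, sup_comm Yc, ← sup_assoc, hsup]
    exact h.compl.sup_eq_top
  · intro y hy z hz
    obtain ⟨z', hz', u, hu, rfl⟩ := Submodule.mem_sup.1 hz
    obtain ⟨c, rfl⟩ := Submodule.mem_span_singleton.1 hu
    rw [polar_add_right, h.orth y (hle hy) z' hz', polar_smul_right, polar_comm,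
      hp.r y (hle hy), smul_zero, add_zero]
  · have h1 := Submodule.finrank_sup_add_finrank_inf_eq Y1 (Submodule.span k {p})
    rw [hsup, hinf, finrank_bot, finrank_span_singleton hp0] at h1
    omega

theorem OD_hyp [FiniteDimensional k E] (h : OD Q Y Yc) {w w' : E} (hw : HP Q Y w w') :
    OD Q (pp Q Y w w') (Yc ⊔ (Submodule.span k {w} ⊔ Submodule.span k {w'})) := by
  have hww := polar_self0 hw.q1
  have hww' := polar_self0 hw.q2
  have h3 : polar Q w' w = 1 := by rw [polar_comm, hw.b]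
  refine ⟨⟨?_, ?_⟩, ?_⟩
  · rw [Submodule.disjoint_def]
    intro x hx hx2
    obtain ⟨hxY, hwx, hwx'⟩ := mem_pp.1 hx
    obtain ⟨z, hz, u, hu, hzu⟩ := Submodule.mem_sup.1 hx2
    obtain ⟨u1, hu1, u2, hu2, rfl⟩ := Submodule.mem_sup.1 hu
    obtain ⟨c, rfl⟩ := Submodule.mem_span_singleton.1 hu1
    obtain ⟨d, rfl⟩ := Submodule.mem_span_singleton.1 hu2
    have hzY : z ∈ Y := by
      have := Y.sub_mem hxY (Y.add_mem (Y.smul_mem c hw.m1) (Y.smul_mem d hw.m2))
      rwa [← hzu, add_sub_cancel_right] at this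
    have hz0 : z = 0 := Submodule.disjoint_def.1 h.compl.disjoint z hzY hz
    rw [hz0, zero_add] at hzu
    rw [← hzu, polar_add_right, polar_smul_right, polar_smul_right, hww, hw.b] at hwx
    rw [← hzu, polar_add_right, polar_smul_right, polar_smul_right, hww', h3] at hwx'
    have hd : d = 0 := by simpa using hwx
    have hc : c = 0 := by simpa using hwx'
    rw [← hzu, hd, hc]
    simp
  · rw [codisjoint_iff, eq_top_iff, ← h.compl.sup_eq_top]
    refine sup_le ?_ (le_sup_left.trans le_sup_right)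
    intro x hx
    have h1 := OG.Geo2.decomp hw x hx
    refine Submodule.mem_sup.2 ⟨_, h1, polar Q w' x • w + polar Q w x • w', ?_, by abel⟩
    refine Submodule.mem_sup_right (Submodule.mem_sup.2 ⟨_, ?_, _, ?_, rfl⟩)
    · exact Submodule.smul_mem _ _ (Submodule.mem_span_singleton_self w)
    · exact Submodule.smul_mem _ _ (Submodule.mem_span_singleton_self w')
  · intro y hy z hz
    obtain ⟨hyY, hwy, hwy'⟩ := mem_pp.1 hy
    obtain ⟨z', hz', u, hu, rfl⟩ := Submodule.mem_sup.1 hz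
    obtain ⟨u1, hu1, u2, hu2, rfl⟩ := Submodule.mem_sup.1 hu
    obtain ⟨c, rfl⟩ := Submodule.mem_span_singleton.1 hu1
    obtain ⟨d, rfl⟩ := Submodule.mem_span_singleton.1 hu2
    rw [polar_add_right, polar_add_right, polar_smul_right, polar_smul_right,
      h.orth y hyY z' hz', polar_comm Q y w, polar_comm Q y w', hwy, hwy']
    simp

theorem eval_rep [FiniteDimensional k E] (h1 : IsCompl Y1 Z)
    (l : Dual k ↥(Z.dualAnnihilator)) :
    ∃ w ∈ Y1, ∀ φ : ↥(Z.dualAnnihilator), l φ = φ.1 w := by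
  obtain ⟨L, hL⟩ := LinearMap.exists_extend (p := Z.dualAnnihilator) l
  set x : E := (Module.evalEquiv k E).symm L with hx
  have hLx : ∀ φ : Dual k E, L φ = φ x := fun φ =>
    (Module.apply_evalEquiv_symm_apply k E φ L).symm
  have htop : x ∈ Y1 ⊔ Z := by
    rw [h1.sup_eq_top]
    exact Submodule.mem_top
  obtain ⟨w, hw, z, hz, hwz⟩ := Submodule.mem_sup.1 htop
  refine ⟨w, hw, fun φ => ?_⟩
  have h2 : l φ = L φ.1 := by
    rw [← hL]
    rfl
  rw [h2, hLx, ← hwz, map_add, (Submodule.mem_dualAnnihilator φ.1).1 φ.2 z hz, add_zero]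

theorem mem_of_ann [FiniteDimensional k E] (h1 : IsCompl Y1 Z) (A : Submodule k E)
    (hA : A ≤ Y1) (w : E) (hw : w ∈ Y1)
    (h : ∀ φ ∈ Z.dualAnnihilator, (∀ x ∈ A, φ x = 0) → φ w = 0) : w ∈ A := by
  have h2 : w ∈ (A ⊔ Z).dualAnnihilator.dualCoannihilator := by
    rw [Submodule.mem_dualCoannihilator]
    intro φ hφ
    rw [Submodule.mem_dualAnnihilator] at hφ
    refine h φ ?_ fun x hx => hφ x (Submodule.mem_sup_left hx)
    rw [Submodule.mem_dualAnnihilator]
    exact fun z hz => hφ z (Submodule.mem_sup_right hz)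
  rw [Subspace.dualAnnihilator_dualCoannihilator_eq] at h2
  obtain ⟨b, hb, z, hz, hbz⟩ := Submodule.mem_sup.1 h2
  have hzY : z ∈ Y1 := by
    have := Y1.sub_mem hw (hA hb)
    rwa [← hbz, add_sub_cancel_left] at this
  have hz0 : z = 0 := Submodule.disjoint_def.1 h1.disjoint z hzY hz
  rw [hz0, add_zero] at hbz
  rw [← hbz]
  exact hb

end SY.D2
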