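import Pool.Agent.Helper60.SY.Tr
import Pool.Agent.Helper60.SY.D1
import Pool.Agent.Helper60.SY.D2

/-!
Project SY (MP_0bd1d1_al): Clifford theory for transvection groups.
-/

namespace SY

open QuadraticMap Module OG
open SY.D1 SY.D2

variable {k E K R : Type*} [Field k] [AddCommGroup E] [Module k E]
  {Q : QuadraticForm k E} {Y Yc Y1 Z : Submodule k E} {p : E} {a t : ℕ}
  [Field K] [CommRing R] [Algebra R K] {ψ : AddChar k R}
  {H : Set (E ≃ₗ[k] E)} {S : Set (Submodule k E × Submodule k E)}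

theorem ann_p (hpZ : p ∈ Z) (φ : ↥(Z.dualAnnihilator)) : φ.1 p = 0 :=
  (Submodule.mem_dualAnnihilator φ.1).1 φ.2 p hpZ

/-- The transvections with centre `p` and functional vanishing on `Z`. -/
def eT (hpZ : p ∈ Z) (φ : ↥(Z.dualAnnihilator)) : E ≃ₗ[k] E := tv p φ.1 (ann_p hpZ φ)

/-- Evaluation at `w`. -/
def evw (Z : Submodule k E) (w : E) : Dual k ↥(Z.dualAnnihilator) :=
  (Dual.eval k E w).domRestrict Z.dualAnnihilator

theorem evw_apply (w : E) (φ : ↥(Z.dualAnnihilator)) : evw Z w φ = φ.1 w := rfl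

variable (K) in
/-- Functions of weight `w`. -/
def WT (hpZ : p ∈ Z) (ψ : AddChar k R) (w : E) :
    Submodule R (Submodule k E × Submodule k E → K) :=
  Wt K (eT hpZ) ψ (evw Z w)

theorem WT_conj (hpZ : p ∈ Z) (g : E ≃ₗ[k] E) (hg : ∀ z ∈ Z, g z = z)
    (w w₀ : E) (hw : g w₀ = w) {f : Submodule k E × Submodule k E → K}
    (hf : f ∈ WT K hpZ ψ w) : act g⁻¹ f ∈ WT K hpZ ψ w₀ := by
  have hgs : ∀ z ∈ Z, g.symm z = z := by
    intro z hz
    rw [LinearEquiv.symm_apply_eq, hg z hz]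
  have hmem : ∀ φ : ↥(Z.dualAnnihilator),
      (φ.1 ∘ₗ (g.symm : E →ₗ[k] E)) ∈ Z.dualAnnihilator := by
    intro φ
    rw [Submodule.mem_dualAnnihilator]
    intro z hz
    change φ.1 (g.symm z) = 0
    rw [hgs z hz]
    exact (Submodule.mem_dualAnnihilator φ.1).1 φ.2 z hz
  refine Wt_conj g (fun φ => ⟨φ.1 ∘ₗ (g.symm : E →ₗ[k] E), hmem φ⟩) ?_ ?_ hf
  · intro φ
    exact tv_conj g (hg p hpZ) φ.1 (ann_p hpZ φ) (ann_p hpZ ⟨_, hmem φ⟩)
  · intro φ
    change φ.1 (g.symm w) = φ.1 w₀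
    rw [← hw, LinearEquiv.symm_apply_apply]

theorem cliffT [Finite k] [FiniteDimensional k E] [IsDomain R] [IsLocalRing R]
    (hpZ : p ∈ Z) (hψ : ∃ c, ψ c ≠ 1) (hq : IsUnit ((Nat.card k : ℕ) : R))
    (hcompl : IsCompl Y1 Z)
    (heH : ∀ φ, eT hpZ φ ∈ H) (T : Fin 3 → Finset E) (n : Fin 3 → ℕ)
    (h1 : ∀ i, ∀ w ∈ T i, ∃ (H₀ : Set (E ≃ₗ[k] E)) (B₀ : Set (Submodule k E × Submodule k E)),
      Bd R K H₀ B₀ (n i) ∧ H₀ ⊆ H ∧ Stb H₀ B₀ ∧
      (∀ g ∈ H₀, (∀ z ∈ Z, g z = z) ∧ g w = w) ∧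
      (∀ f : Submodule k E × Submodule k E → K, f ∈ WT K hpZ ψ w → f ∈ supS R K S →
        (∀ v ∈ B₀, f v = 0) → f = 0))
    (h2 : ∀ w ∈ Y1, (∀ f : Submodule k E × Submodule k E → K, f ∈ WT K hpZ ψ w →
        f ∈ supS R K S → f = 0) ∨
      ∃ i, ∃ w₀ ∈ T i, ∃ g ∈ H, g⁻¹ ∈ H ∧ (∀ z ∈ Z, g z = z) ∧ g w₀ = w) :
    Bd R K H S (∑ i, (T i).card * n i) := by
  have : Finite E := Module.finite_of_finite k
  have : FiniteDimensional k (Dual k E) := inferInstance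
  have hfd : Finite (Dual k E) := Module.finite_of_finite k
  have hu : IsUnit ((Nat.card (Dual k ↥(Z.dualAnnihilator)) : ℕ) : R) := by
    rw [Module.natCard_eq_pow_finrank (K := k), Nat.cast_pow]
    exact hq.pow _
  have hadd : ∀ φ φ' : ↥(Z.dualAnnihilator),
      eT hpZ (φ + φ') = eT hpZ φ * eT hpZ φ' :=
    fun φ φ' => tv_add φ.1 φ'.1 _ _ _
  have main := Bd_clifford (K := K) (R := R) (S := S) (eT hpZ) hadd ψ hψ hu heH
    (Finset.univ.sigma T) (fun c => evw Z c.2) (fun c => n c.1) ?_ ?_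
  · rw [Finset.sum_sigma] at main
    simpa using main
  · rintro ⟨i, w⟩ hc
    rw [Finset.mem_sigma] at hc
    obtain ⟨H₀, B₀, hB, hH, hSt, hW, hinj⟩ := h1 i w hc.2
    refine ⟨H₀, B₀, hB, hH, hSt, ?_, hinj⟩
    intro g hg f hf
    have hgi : ∀ x, g x = x → g⁻¹ x = x := by
      intro x hx
      have h1 : g⁻¹ (g x) = x := g.symm_apply_apply x
      rwa [hx] at h1
    have := WT_conj hpZ g⁻¹ (fun z hz => hgi z ((hW g hg).1 z hz)) w w (hgi w (hW g hg).2)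
      (f := f) hf
    rw [inv_inv] at this
    exact this
  · intro l
    obtain ⟨w, hw, hwl⟩ := eval_rep hcompl l
    have hl : l = evw Z w := by
      ext φ
      exact hwl φ
    rw [hl]
    rcases h2 w hw with h' | ⟨i, w₀, hw₀, g, hg, hg', hgz, hgw⟩
    · left
      exact h'
    · right
      refine ⟨⟨i, w₀⟩, by simpa using hw₀, g, hg, hg', ?_⟩
      intro f hf
      exact WT_conj hpZ g hgz w w₀ hgw hf

end SY
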