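import Pool.Agent.Helper60.SY.Defs

/-!
Project SY (MP_0bd1d1_al): module D3 (written by helper29).
-/

namespace SY.D3

open QuadraticMap Module OG

variable {k E : Type*} [Field k] [AddCommGroup E] [Module k E]
  {Q : QuadraticForm k E} {Y Yc Y1 Yc1 Z : Submodule k E} {a t : ℕ} {p : E}

/-! ### auxiliary lemmas -/

theorem aux_split (h : OD Q Y Yc) (hp : RadS Q Y p) (hp0 : p ≠ 0)
    (h1 : OD Q Y1 (Yc ⊔ Submodule.span k {p})) (hle : Y1 ≤ Y) :
    ∃ (π : E →ₗ[k] E) (c : Dual k E), (∀ x, π x ∈ Y1) ∧ (∀ x ∈ Y1, π x = x) ∧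
      (∀ x ∈ Yc ⊔ Submodule.span k {p}, π x = 0) ∧ (∀ x ∈ Y, x = π x + c x • p) := by
  obtain ⟨f, hf⟩ := Projective.exists_dual_eq_one k hp0
  refine ⟨Y1.projection _ h1.compl, f ∘ₗ (LinearMap.id - Y1.projection _ h1.compl), fun x =>
    Submodule.projection_apply_mem _ x, fun x hx => Submodule.projection_apply_of_mem_left _ hx,
    fun x hx => (Submodule.projection_apply_eq_zero_iff _).2 hx, fun x hx => ?_⟩
  have h2 : x - Y1.projection _ h1.compl x ∈ Yc ⊔ Submodule.span k {p} := by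
    rw [← Submodule.projection_apply_eq_zero_iff h1.compl, map_sub,
      Submodule.projection_apply_of_mem_left _ (Submodule.projection_apply_mem h1.compl x),
      sub_self]
  obtain ⟨u, hu, v, hv, huv⟩ := Submodule.mem_sup.1 h2
  obtain ⟨d, rfl⟩ := Submodule.mem_span_singleton.1 hv
  have hxY : x - Y1.projection _ h1.compl x ∈ Y :=
    Y.sub_mem hx (hle (Submodule.projection_apply_mem h1.compl x))
  have huY : u ∈ Y := by
    have : u = (x - Y1.projection _ h1.compl x) - d • p := by rw [← huv, add_sub_cancel_right]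
    rw [this]
    exact Y.sub_mem hxY (Y.smul_mem _ hp.mem)
  have hu0 : u = 0 := Submodule.disjoint_def.1 h.compl.disjoint u huY hu
  rw [hu0, zero_add] at huv
  have h3 : (f ∘ₗ (LinearMap.id - Y1.projection _ h1.compl)) x = d := by
    rw [LinearMap.comp_apply, LinearMap.sub_apply, LinearMap.id_apply, ← huv, map_smul, hf,
      smul_eq_mul, mul_one]
  rw [h3, huv, add_sub_cancel]

theorem aux_notMem (hp0 : p ≠ 0) (h1 : OD Q Y1 (Yc ⊔ Submodule.span k {p})) : p ∉ Y1 := fun hp =>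
  hp0 (Submodule.disjoint_def.1 h1.compl.disjoint p hp
    (Submodule.mem_sup_right (Submodule.mem_span_singleton_self p)))

theorem aux_polar (hp : RadS Q Y p) {x y : E} {c : k} {z : E} (hx : x = z + c • p)
    (hy : y ∈ Y) : polar Q z y = polar Q x y := by
  rw [hx, polar_add_left, polar_smul_left, hp.r y hy, smul_zero, add_zero]

theorem aux_Q (hp : RadS Q Y p) {x : E} {c : k} {z : E} (hx : x = z + c • p)
    (hz : z ∈ Y) : Q z = Q x := by
  have h1 : polar Q z p = 0 := by rw [polar_comm, hp.r z hz]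
  rw [hx, QuadraticMap.map_add Q, QuadraticMap.map_smul, hp.q, polar_smul_right, h1]
  simp

theorem aux_rank [FiniteDimensional k E] {A : Submodule k E} (hp0 : p ≠ 0) (hA : p ∉ A) :
    finrank k ↥(Submodule.span k {p} ⊔ A) = finrank k A + 1 := by
  have h1 := Submodule.finrank_sup_add_finrank_inf_eq (Submodule.span k {p}) A
  have h2 : Submodule.span k {p} ⊓ A = ⊥ := by
    rw [← disjoint_iff, Submodule.disjoint_def]
    intro x hx hxA
    obtain ⟨d, rfl⟩ := Submodule.mem_span_singleton.1 hx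
    by_cases hd : d = 0
    · rw [hd, zero_smul]
    · exact absurd ((Submodule.smul_mem_iff A hd).1 hxA) hA
  rw [h2, finrank_bot, finrank_span_singleton hp0] at h1
  omega

theorem aux_fun {π : E →ₗ[k] E} {c : Dual k E} (hπ1 : ∀ x, π x ∈ Y1) (hπ2 : ∀ x ∈ Y1, π x = x)
    (hπ3 : ∀ x ∈ Yc ⊔ Submodule.span k {p}, π x = 0) (hπ4 : ∀ x ∈ Y, x = π x + c x • p)
    {A : Submodule k E} (hA : A ≤ Y) (hpA : p ∉ A) :
    ∃ φ ∈ (Yc ⊔ Submodule.span k {p}).dualAnnihilator, ∀ x ∈ A, φ (π x) = c x := by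
  have hinj : LinearMap.ker (π ∘ₗ A.subtype) = ⊥ := by
    rw [LinearMap.ker_eq_bot']
    rintro ⟨x, hx⟩ h0
    change π x = 0 at h0
    have h1 := hπ4 x (hA hx)
    rw [h0, zero_add] at h1
    by_cases hc : c x = 0
    · rw [hc, zero_smul] at h1
      exact Subtype.ext h1
    · refine absurd ?_ hpA
      rw [← Submodule.smul_mem_iff A hc, ← h1]
      exact hx
  obtain ⟨s, hs⟩ := LinearMap.exists_leftInverse_of_injective _ hinj
  refine ⟨(c ∘ₗ A.subtype) ∘ₗ (s ∘ₗ π), ?_, fun x hx => ?_⟩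
  · rw [Submodule.mem_dualAnnihilator]
    intro z hz
    change c (s (π z) : E) = 0
    rw [hπ3 z hz, map_zero, Submodule.coe_zero, map_zero]
  · have h1 : s (π x) = ⟨x, hx⟩ := by
      have := LinearMap.congr_fun hs ⟨x, hx⟩
      exact this
    change c (s (π (π x)) : E) = c x
    rw [hπ2 _ (hπ1 x), h1]

theorem aux_smul {π : E →ₗ[k] E} {c φ : Dual k E} (hπ4 : ∀ x ∈ Y, x = π x + c x • p)
    {A : Submodule k E} (hA : A ≤ Y) (hφ : ∀ x ∈ A, φ (π x) = c x) (h0 : φ p = 0) :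
    tv p φ h0 • (A.map π) = A := by
  ext x
  rw [mem_smul]
  constructor
  · rintro ⟨y, ⟨z, hz, rfl⟩, rfl⟩
    rw [tv_apply, hφ z hz, ← hπ4 z (hA hz)]
    exact hz
  · intro hx
    refine ⟨π x, ⟨x, hx, rfl⟩, ?_⟩
    rw [tv_apply, hφ x hx, ← hπ4 x (hA hx)]

theorem aux_finrank [FiniteDimensional k E] (g : E ≃ₗ[k] E) (A : Submodule k E) :
    finrank k ↥(g • A) = finrank k A := LinearEquiv.finrank_map_eq g A

theorem aux_span (W : Submodule k E) (φ : Dual k E) (h0 : φ p = 0) :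
    tv p φ h0 • (Submodule.span k {p} ⊔ W) = Submodule.span k {p} ⊔ W := by
  have hp : p ∈ Submodule.span k {p} ⊔ W :=
    Submodule.mem_sup_left (Submodule.mem_span_singleton_self p)
  ext x
  rw [mem_smul]
  constructor
  · rintro ⟨y, hy, rfl⟩
    rw [tv_apply]
    exact Submodule.add_mem _ hy (Submodule.smul_mem _ _ hp)
  · intro hx
    refine ⟨x - φ x • p, Submodule.sub_mem _ hx (Submodule.smul_mem _ _ hp), ?_⟩
    rw [tv_apply, map_sub, map_smul, h0, smul_zero, sub_zero, sub_add_cancel]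

theorem aux_fix (W : Submodule k E) (φ : Dual k E) (h0 : φ p = 0) (hφ : ∀ x ∈ W, φ x = 0) :
    tv p φ h0 • W = W := by
  ext x
  rw [mem_smul]
  constructor
  · rintro ⟨y, hy, rfl⟩
    rw [tv_apply, hφ y hy, zero_smul, add_zero]
    exact hy
  · intro hx
    refine ⟨x, hx, ?_⟩
    rw [tv_apply, hφ x hx, zero_smul, add_zero]

theorem aux_dec {π : E →ₗ[k] E} {c : Dual k E} (hπ1 : ∀ x, π x ∈ Y1)
    (hπ4 : ∀ x ∈ Y, x = π x + c x • p) {A : Submodule k E} (hA : A ≤ Y) (hpA : p ∈ A) :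
    A = Submodule.span k {p} ⊔ A ⊓ Y1 := by
  apply le_antisymm
  · intro x hx
    have h1 := hπ4 x (hA hx)
    have h2 : π x ∈ A := by
      have : π x = x - c x • p := eq_sub_of_add_eq h1.symm
      rw [this]
      exact A.sub_mem hx (A.smul_mem _ hpA)
    rw [h1, add_comm]
    exact Submodule.add_mem_sup (Submodule.smul_mem _ _ (Submodule.mem_span_singleton_self p))
      ⟨h2, hπ1 x⟩
  · exact sup_le ((Submodule.span_singleton_le_iff_mem p A).2 hpA) inf_le_left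

/-! ### the statements -/

theorem decT1 [FiniteDimensional k E] (h : OD Q Y Yc) (hp : RadS Q Y p) (hp0 : p ≠ 0)
    (h1 : OD Q Y1 (Yc ⊔ Submodule.span k {p})) (hle : Y1 ≤ Y)
    (w : Submodule k E × Submodule k E) (hw : w ∈ PK Q Y a t) (hpA : p ∈ w.1) :
    ∃ a' t', a = a' + 1 ∧ t = t' + 1 ∧ ∃ v ∈ PK Q Y1 a' t',
      w = (Submodule.span k {p} ⊔ v.1, Submodule.span k {p} ⊔ v.2) := by
  obtain ⟨hAT, hTY, ha, ht, hQ, hB⟩ := hw
  obtain ⟨π, c, hπ1, hπ2, hπ3, hπ4⟩ := aux_split h hp hp0 h1 hle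
  have hpY := aux_notMem hp0 h1
  have e1 := aux_dec hπ1 hπ4 (hAT.trans hTY) hpA
  have e2 := aux_dec hπ1 hπ4 hTY (hAT hpA)
  have r1 := aux_rank (A := w.1 ⊓ Y1) hp0 (fun hh => hpY hh.2)
  have r2 := aux_rank (A := w.2 ⊓ Y1) hp0 (fun hh => hpY hh.2)
  rw [← e1, ha] at r1
  rw [← e2, ht] at r2
  refine ⟨_, _, r1, r2, (w.1 ⊓ Y1, w.2 ⊓ Y1), ⟨inf_le_inf_right _ hAT, inf_le_right, rfl, rfl,
    fun x hx => hQ x hx.1, fun x hx y hy => hB x hx.1 y (hle hy)⟩, Prod.ext e1 e2⟩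

theorem decT2 [FiniteDimensional k E] (h : OD Q Y Yc) (hp : RadS Q Y p) (hp0 : p ≠ 0)
    (h1 : OD Q Y1 (Yc ⊔ Submodule.span k {p})) (hle : Y1 ≤ Y)
    (w : Submodule k E × Submodule k E) (hw : w ∈ PK Q Y a t) (hpA : p ∉ w.1)
    (hpT : p ∈ w.2) :
    ∃ t', t = t' + 1 ∧ ∃ v ∈ PK Q Y1 a t',
      ∃ φ ∈ (Yc ⊔ Submodule.span k {p}).dualAnnihilator, ∀ h0,
        w = tv p φ h0 • ((v.1, Submodule.span k {p} ⊔ v.2) :
          Submodule k E × Submodule k E) := by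
  obtain ⟨hAT, hTY, ha, ht, hQ, hB⟩ := hw
  obtain ⟨π, c, hπ1, hπ2, hπ3, hπ4⟩ := aux_split h hp hp0 h1 hle
  have hpY := aux_notMem hp0 h1
  have e2 := aux_dec hπ1 hπ4 hTY hpT
  have r2 := aux_rank (A := w.2 ⊓ Y1) hp0 (fun hh => hpY hh.2)
  rw [← e2, ht] at r2
  obtain ⟨φ, hφ1, hφ2⟩ := aux_fun hπ1 hπ2 hπ3 hπ4 (hAT.trans hTY) hpA
  have hφp : φ p = 0 := (Submodule.mem_dualAnnihilator φ).1 hφ1 p
    (Submodule.mem_sup_right (Submodule.mem_span_singleton_self p))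
  have e1 := aux_smul hπ4 (hAT.trans hTY) hφ2 hφp
  refine ⟨_, r2, (w.1.map π, w.2 ⊓ Y1), ⟨?_, inf_le_right, ?_, rfl,
    fun x hx => hQ x hx.1, ?_⟩, φ, hφ1, fun h0 => ?_⟩
  · rintro _ ⟨x, hx, rfl⟩
    refine ⟨?_, hπ1 x⟩
    have : π x = x - c x • p := eq_sub_of_add_eq (hπ4 x (hTY (hAT hx))).symm
    rw [this]
    exact w.2.sub_mem (hAT hx) (w.2.smul_mem _ hpT)
  · change finrank k ↥(w.1.map π) = a
    rw [← aux_finrank (tv p φ hφp), e1, ha]
  · rintro _ ⟨x, hx, rfl⟩ y hy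
    rw [aux_polar hp (hπ4 x (hTY (hAT hx))) (hle hy)]
    exact hB x hx y (hle hy)
  · refine Prod.ext e1.symm ?_
    change w.2 = tv p φ h0 • (Submodule.span k {p} ⊔ w.2 ⊓ Y1)
    rw [aux_span, ← e2]

theorem decT3 [FiniteDimensional k E] (h : OD Q Y Yc) (hp : RadS Q Y p) (hp0 : p ≠ 0)
    (h1 : OD Q Y1 (Yc ⊔ Submodule.span k {p})) (hle : Y1 ≤ Y)
    (w : Submodule k E × Submodule k E) (hw : w ∈ PK Q Y a t) (hpT : p ∉ w.2) :
    ∃ v ∈ PK Q Y1 a t, ∃ φ ∈ (Yc ⊔ Submodule.span k {p}).dualAnnihilator, ∀ h0,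
      w = tv p φ h0 • v := by
  obtain ⟨hAT, hTY, ha, ht, hQ, hB⟩ := hw
  obtain ⟨π, c, hπ1, hπ2, hπ3, hπ4⟩ := aux_split h hp hp0 h1 hle
  obtain ⟨φ, hφ1, hφ2⟩ := aux_fun hπ1 hπ2 hπ3 hπ4 hTY hpT
  have hφp : φ p = 0 := (Submodule.mem_dualAnnihilator φ).1 hφ1 p
    (Submodule.mem_sup_right (Submodule.mem_span_singleton_self p))
  have e2 := aux_smul hπ4 hTY hφ2 hφp
  have e1 := aux_smul hπ4 (hAT.trans hTY) (fun x hx => hφ2 x (hAT hx)) hφp
  refine ⟨(w.1.map π, w.2.map π), ⟨Submodule.map_mono hAT, ?_, ?_, ?_, ?_, ?_⟩, φ, hφ1,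
    fun h0 => Prod.ext e1.symm e2.symm⟩
  · rintro _ ⟨x, _, rfl⟩
    exact hπ1 x
  · change finrank k ↥(w.1.map π) = a
    rw [← aux_finrank (tv p φ hφp), e1, ha]
  · change finrank k ↥(w.2.map π) = t
    rw [← aux_finrank (tv p φ hφp), e2, ht]
  · rintro _ ⟨x, hx, rfl⟩
    rw [aux_Q hp (hπ4 x (hTY hx)) (hle (hπ1 x))]
    exact hQ x hx
  · rintro _ ⟨x, hx, rfl⟩ y hy
    rw [aux_polar hp (hπ4 x (hTY (hAT hx))) (hle hy)]
    exact hB x hx y (hle hy)

theorem stT1 (v : Submodule k E × Submodule k E) (φ : Dual k E) (h0 : φ p = 0) :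
    tv p φ h0 • ((Submodule.span k {p} ⊔ v.1, Submodule.span k {p} ⊔ v.2) :
      Submodule k E × Submodule k E)
      = (Submodule.span k {p} ⊔ v.1, Submodule.span k {p} ⊔ v.2) :=
  Prod.ext (aux_span _ φ h0) (aux_span _ φ h0)

theorem stT2 (v : Submodule k E × Submodule k E) (φ : Dual k E) (h0 : φ p = 0)
    (hφ : ∀ x ∈ v.1, φ x = 0) :
    tv p φ h0 • ((v.1, Submodule.span k {p} ⊔ v.2) : Submodule k E × Submodule k E)
      = (v.1, Submodule.span k {p} ⊔ v.2) :=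
  Prod.ext (aux_fix _ φ h0 hφ) (aux_span _ φ h0)

theorem stT3 (v : Submodule k E × Submodule k E) (hv : v.1 ≤ v.2) (φ : Dual k E)
    (h0 : φ p = 0) (hφ : ∀ x ∈ v.2, φ x = 0) : tv p φ h0 • v = v :=
  Prod.ext (aux_fix _ φ h0 fun x hx => hφ x (hv hx)) (aux_fix _ φ h0 hφ)

theorem thrN [FiniteDimensional k E] {w w' : E} (hw : HP Q Y w w')
    (v : Submodule k E × Submodule k E) (hv : v ∈ PK Q Y a t) (hwv : w ∈ v.2) :
    ∃ t', t = t' + 1 ∧ ∃ T2, (v.1, T2) ∈ PK Q (pp Q Y w w') a t' ∧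
      v.2 = Submodule.span k {w} ⊔ T2 := by
  obtain ⟨hAT, hTY, ha, ht, hQ, hB⟩ := hv
  have hb' : polar Q w' w = 1 := by rw [polar_comm, hw.b]
  have hww : polar Q w w = 0 := polar_self0 hw.q1
  have hTs : ∀ x ∈ v.2, polar Q w x = 0 := by
    intro x hx
    unfold polar
    rw [hQ _ (v.2.add_mem hwv hx), hQ w hwv, hQ x hx]
    simp
  have hw0 : w ≠ 0 := by
    rintro rfl
    have := hw.b
    rw [polar_zero_left] at this
    exact zero_ne_one this
  have hnot : w ∉ v.2 ⊓ pp Q Y w w' := by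
    intro hh
    have := (mem_pp.1 hh.2).2.2
    rw [hb'] at this
    exact one_ne_zero this
  have e : v.2 = Submodule.span k {w} ⊔ v.2 ⊓ pp Q Y w w' := by
    apply le_antisymm
    · intro x hx
      have h2 : x - polar Q w' x • w ∈ v.2 ⊓ pp Q Y w w' := by
        have h3 : x - polar Q w' x • w ∈ v.2 := v.2.sub_mem hx (v.2.smul_mem _ hwv)
        refine ⟨h3, mem_pp.2 ⟨hTY h3, hTs _ h3, ?_⟩⟩
        rw [polar_sub_right, polar_smul_right, hb', smul_eq_mul, mul_one, sub_self]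
      have h4 : x = polar Q w' x • w + (x - polar Q w' x • w) := by
        rw [add_sub_cancel]
      rw [h4]
      exact Submodule.add_mem_sup (Submodule.smul_mem _ _ (Submodule.mem_span_singleton_self w)) h2
    · exact sup_le ((Submodule.span_singleton_le_iff_mem w v.2).2 hwv) inf_le_left
  have r := aux_rank hw0 hnot
  rw [← e, ht] at r
  refine ⟨_, r, v.2 ⊓ pp Q Y w w', ⟨?_, inf_le_right, ha, rfl, fun x hx => hQ x hx.1, ?_⟩, e⟩
  · intro x hx
    refine ⟨hAT hx, mem_pp.2 ⟨hTY (hAT hx), hTs x (hAT hx), ?_⟩⟩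
    rw [polar_comm]
    exact hB x hx w' hw.m2
  · intro x hx y hy
    exact hB x hx y (mem_pp.1 hy).1

end SY.D3
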