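import Pool.Agent.Helper60.SY.Defs

/-!
Project SY (MP_0bd1d1_al): module D4.
-/

set_option autoImplicit false

namespace SY.D4

open QuadraticMap Module OG

variable {k E : Type*} [Field k] [AddCommGroup E] [Module k E]
  {Q : QuadraticForm k E} {Y Yc Y1 Yc1 Z : Submodule k E} {a t : ℕ} {p : E}

/-- a functional vanishing on `Y` with value `1` at `w` -/
private theorem func_one (Y : Submodule k E) (w : E) (hw : w ∉ Y) :
    ∃ φ : Dual k E, φ w = 1 ∧ ∀ y ∈ Y, φ y = 0 := by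
  obtain ⟨f, hf1, hf2⟩ := Submodule.exists_dual_map_eq_bot_of_notMem hw inferInstance
  refine ⟨(f w)⁻¹ • f, ?_, fun y hy => ?_⟩
  · rw [LinearMap.smul_apply, smul_eq_mul, inv_mul_cancel₀ hf1]
  · have h1 : f y ∈ Submodule.map f Y := ⟨y, hy, rfl⟩
    rw [hf2, Submodule.mem_bot] at h1
    rw [LinearMap.smul_apply, h1, smul_zero]

theorem radTrans [FiniteDimensional k E] (h : OD Q Y Yc) {w w' : E} (hw : RadS Q Y w)
    (hw' : RadS Q Y w') (h0 : w ≠ 0) (h0' : w' ≠ 0) : ∃ g ∈ GD Q Y Yc, g w = w' := by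
  have hdisj : ∀ x, x ∈ Y → x ∈ Yc → x = 0 := by
    intro x h1 h2
    have h3 : x ∈ Y ⊓ Yc := ⟨h1, h2⟩
    rw [h.compl.inf_eq_bot, Submodule.mem_bot] at h3
    exact h3
  obtain ⟨φ, hφ1, hφ2, hφ3⟩ : ∃ φ : Dual k E, φ w = 1 ∧ φ w' ≠ 0 ∧ ∀ z ∈ Yc, φ z = 0 := by
    have hwn : w ∉ Yc := fun hc => h0 (hdisj w hw.mem hc)
    obtain ⟨φ0, h1, h2⟩ := func_one Yc w hwn
    by_cases h3 : φ0 w' = 0
    · have hn : w' ∉ Yc ⊔ Submodule.span k {w} := by
        intro hc
        obtain ⟨z, hz, u, hu, huz⟩ := Submodule.mem_sup.1 hc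
        obtain ⟨c, rfl⟩ := Submodule.mem_span_singleton.1 hu
        have hzY : z ∈ Y := by
          have : z = w' - c • w := by rw [← huz]; abel
          rw [this]
          exact Y.sub_mem hw'.mem (Y.smul_mem _ hw.mem)
        have hz0 := hdisj z hzY hz
        rw [hz0, zero_add] at huz
        rw [← huz, map_smul, h1, smul_eq_mul, mul_one] at h3
        rw [h3, zero_smul] at huz
        exact h0' huz.symm
      obtain ⟨φ1, h4, h5⟩ := func_one _ w' hn
      refine ⟨φ0 + φ1, ?_, ?_, ?_⟩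
      · rw [LinearMap.add_apply, h1, h5 w (Submodule.mem_sup_right (Submodule.mem_span_singleton_self w)),
          add_zero]
      · rw [LinearMap.add_apply, h3, h4, zero_add]
        exact one_ne_zero
      · intro z hz
        rw [LinearMap.add_apply, h2 z hz, h5 z (Submodule.mem_sup_left hz), add_zero]
    · exact ⟨φ0, h1, h3, h2⟩
  have hd : φ (w' - w) = φ w' - 1 := by rw [map_sub, hφ1]
  -- the map
  have hBw : ∀ x, polar Q w x = 0 := by
    intro x
    have hx : x ∈ Y ⊔ Yc := by rw [h.compl.sup_eq_top]; trivial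
    obtain ⟨y, hy, z, hz, rfl⟩ := Submodule.mem_sup.1 hx
    rw [polar_add_right, hw.r y hy, h.orth w hw.mem z hz, add_zero]
  have hBw' : ∀ x, polar Q w' x = 0 := by
    intro x
    have hx : x ∈ Y ⊔ Yc := by rw [h.compl.sup_eq_top]; trivial
    obtain ⟨y, hy, z, hz, rfl⟩ := Submodule.mem_sup.1 hx
    rw [polar_add_right, hw'.r y hy, h.orth w' hw'.mem z hz, add_zero]
  have hBd : ∀ x, polar Q (w' - w) x = 0 := by
    intro x
    rw [polar_sub_left, hBw, hBw', sub_zero]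
  have hQd : Q (w' - w) = 0 := by
    rw [OG.WA.q_sub, hw'.q, hw.q, hBw' w]
    ring
  obtain ⟨d, hdd⟩ : ∃ d, d = w' - w := ⟨_, rfl⟩
  rw [← hdd] at hd
  let g : E ≃ₗ[k] E := LinearEquiv.ofLinearMap (LinearMap.id + φ.smulRight d)
    (LinearMap.id - ((φ w')⁻¹ • φ).smulRight d)
    (by
      ext x
      have h4 : φ x - ((φ w')⁻¹ * φ x) * (φ w') = 0 := by field_simp; ring
      simp only [LinearMap.coe_comp, Function.comp_apply, LinearMap.add_apply, LinearMap.sub_apply,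
        LinearMap.id_coe, id_eq, LinearMap.smulRight_apply, LinearMap.smul_apply, smul_eq_mul, map_sub,
        map_smul, hd]
      rw [show x + φ x • d - ((φ w')⁻¹ * φ x) • (d + (φ w' - 1) • d) =
        x + (φ x - ((φ w')⁻¹ * φ x) * (φ w')) • d by module, h4, zero_smul, add_zero])
    (by
      ext x
      have h4 : φ x * (1 - (φ w')⁻¹ * (φ w' - 1)) - (φ w')⁻¹ * φ x = 0 := by
        field_simp
        ring
      simp only [LinearMap.coe_comp, Function.comp_apply, LinearMap.add_apply, LinearMap.sub_apply,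
        LinearMap.id_coe, id_eq, LinearMap.smulRight_apply, LinearMap.smul_apply, smul_eq_mul, map_add,
        map_smul, hd]
      rw [show x - ((φ w')⁻¹ * φ x) • d + φ x • (d - ((φ w')⁻¹ * (φ w' - 1)) • d) =
        x + (φ x * (1 - (φ w')⁻¹ * (φ w' - 1)) - (φ w')⁻¹ * φ x) • d by module, h4, zero_smul,
        add_zero])
  have hg : ∀ x, g x = x + φ x • (w' - w) := fun x => by rw [← hdd]; rfl
  refine ⟨g, ⟨?_, ?_, ?_⟩, ?_⟩
  · intro x
    rw [hg, QuadraticMap.map_add Q, OG.WA.q_smul, hQd, polar_smul_right, polar_comm, hBd]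
    simp
  · intro z hz
    rw [hg, hφ3 z hz, zero_smul, add_zero]
  · intro y hy
    rw [hg]
    exact Y.add_mem hy (Y.smul_mem _ (Y.sub_mem hw'.mem hw.mem))
  · rw [hg, hφ1, one_smul]
    abel

theorem nonradTrans (y y' : E) (hy : y ∈ Z) (hy' : y' ∈ Z) (h : Q y = 0)
    (h' : Q y' = 0) (ha : ∃ b ∈ Z, polar Q y b ≠ 0) (hb : ∃ b ∈ Z, polar Q y' b ≠ 0) :
    ∃ g ∈ Gr Q Z, g y = y' := by
  by_cases hbb : polar Q y y' = 0
  · obtain ⟨a, ha, ha2⟩ := ha
    obtain ⟨b, hb1, hb2⟩ := hb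
    obtain ⟨z0, hz0, hz1, hz2⟩ : ∃ z0 ∈ Z, polar Q y z0 ≠ 0 ∧ polar Q y' z0 ≠ 0 := by
      by_cases h1 : polar Q y' a = 0
      · by_cases h2 : polar Q y b = 0
        · refine ⟨a + b, Z.add_mem ha hb1, ?_, ?_⟩
          · rw [polar_add_right, h2, add_zero]
            exact ha2
          · rw [polar_add_right, h1, zero_add]
            exact hb2
        · exact ⟨b, hb1, h2, hb2⟩
      · exact ⟨a, ha, ha2, h1⟩
    obtain ⟨z, hz⟩ : ∃ z, z = z0 - (Q z0 / polar Q y z0) • y := ⟨_, rfl⟩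
    have hzZ : z ∈ Z := by
      rw [hz]
      exact Z.sub_mem hz0 (Z.smul_mem _ hy)
    have hQz : Q z = 0 := by
      rw [hz, OG.WA.q_sub, OG.WA.q_smul, h, polar_smul_right, polar_comm Q z0 y, smul_eq_mul]
      field_simp
      ring
    have hyz : polar Q y z ≠ 0 := by
      rw [hz, polar_sub_right, polar_smul_right, OG.WA.p_self, h]
      simpa using hz1
    have hyz' : polar Q z y' ≠ 0 := by
      rw [polar_comm, hz, polar_sub_right, polar_smul_right, polar_comm Q y' y, hbb]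
      simpa using hz2
    obtain ⟨g1, hg1, e1⟩ := OG.WA.trans_one y z hy hzZ h hQz hyz
    obtain ⟨g2, hg2, e2⟩ := OG.WA.trans_one z y' hzZ hy' hQz h' hyz'
    refine ⟨g2 * g1, OG.WA.g_mul g2 g1 hg2 hg1, ?_⟩
    rw [LinearEquiv.mul_apply, e1, e2]
  · exact OG.WA.trans_one y y' hy hy' h h' hbb

theorem exists_HPs (hp : p ∈ Y) (hq : Q p = 0) (ha : ∃ b ∈ Y, polar Q p b ≠ 0) :
    ∃ p', HP Q Y p p' := by
  obtain ⟨y, hy, hb⟩ := ha
  have hpp : polar Q p p = 0 := by rw [OG.WA.p_self, hq, mul_zero]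
  obtain ⟨z, hz, hbz⟩ : ∃ z ∈ Y, polar Q p z = 1 :=
    ⟨(polar Q p y)⁻¹ • y, Y.smul_mem _ hy, by
      rw [polar_smul_right, smul_eq_mul, inv_mul_cancel₀ hb]⟩
  refine ⟨z - Q z • p, hp, Y.sub_mem hz (Y.smul_mem _ hp), hq, ?_, ?_⟩
  · rw [OG.WA.q_sub, OG.WA.q_smul, hq, polar_smul_right, polar_comm Q z p, hbz]
    simp
  · rw [polar_sub_right, polar_smul_right, hpp, hbz]
    simp

end SY.D4
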