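import Pool.Agent.Helper60.SY.CliffT
import Pool.Agent.Helper60.SY.D3
import Pool.Agent.Helper60.SY.D4

/-!
Project SY (MP_0bd1d1_al): pairs of subspaces in possibly degenerate quadratic spaces.
-/

namespace SY

open QuadraticMap Module OG
open SY.D1 SY.D2 SY.D3 SY.D4

variable {k E K R : Type*} [Field k] [AddCommGroup E] [Module k E] [FiniteDimensional k E]
  {Q : QuadraticForm k E} {Y Yc Y1 Z : Submodule k E} {p : E} {a t m : ℕ}
  [Field K] [CommRing R] [IsDomain R] [Algebra R K] [IsFractionRing R K] {ψ : AddChar k R}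

section weights

omit [FiniteDimensional k E] in
/-- The annihilator of `A` inside the annihilator of `Z`. -/
theorem ev_zero (hpZ : p ∈ Z) (hψ : ∃ c, ψ c ≠ 1) {w : E}
    {f : Submodule k E × Submodule k E → K} (hf : f ∈ WT K hpZ ψ w)
    (v : Submodule k E × Submodule k E) (h0 : f v ≠ 0) (A : Submodule k E)
    (hA : ∀ (φ : ↥(Z.dualAnnihilator)), (∀ x ∈ A, φ.1 x = 0) → eT hpZ φ • v = v) :
    ∀ φ ∈ Z.dualAnnihilator, (∀ x ∈ A, φ x = 0) → φ w = 0 := by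
  intro φ hφ hφA
  exact Wt_zero_on hψ hf v h0 (A.dualAnnihilator.comap Z.dualAnnihilator.subtype)
    (fun u hu => hA u (fun x hx => (Submodule.mem_dualAnnihilator u.1).1 hu x hx)) ⟨φ, hφ⟩
    ((Submodule.mem_dualAnnihilator φ).2 hφA)

theorem t1 (hpZ : p ∈ Z) (hc : IsCompl Y1 Z) (hψ : ∃ c, ψ c ≠ 1) {w : E} (hw : w ∈ Y1)
    {f : Submodule k E × Submodule k E → K} (hf : f ∈ WT K hpZ ψ w)
    (v : Submodule k E × Submodule k E)
    (h0 : f (Submodule.span k {p} ⊔ v.1, Submodule.span k {p} ⊔ v.2) ≠ 0) : w = 0 := by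
  have h1 := ev_zero hpZ hψ hf _ h0 ⊥ (fun φ _ => stT1 v φ.1 (ann_p hpZ φ))
  have h2 := mem_of_ann hc ⊥ bot_le w hw h1
  exact (Submodule.mem_bot k).1 h2

theorem t2 (hpZ : p ∈ Z) (hc : IsCompl Y1 Z) (hψ : ∃ c, ψ c ≠ 1) {w : E} (hw : w ∈ Y1)
    {f : Submodule k E × Submodule k E → K} (hf : f ∈ WT K hpZ ψ w)
    (v : Submodule k E × Submodule k E) (hv : v.1 ≤ Y1)
    (h0 : f (v.1, Submodule.span k {p} ⊔ v.2) ≠ 0) : w ∈ v.1 := by
  have h1 := ev_zero hpZ hψ hf _ h0 v.1 (fun φ hφ => stT2 v φ.1 (ann_p hpZ φ) hφ)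
  exact mem_of_ann hc v.1 hv w hw h1

theorem t3 (hpZ : p ∈ Z) (hc : IsCompl Y1 Z) (hψ : ∃ c, ψ c ≠ 1) {w : E} (hw : w ∈ Y1)
    {f : Submodule k E × Submodule k E → K} (hf : f ∈ WT K hpZ ψ w)
    (v : Submodule k E × Submodule k E) (hv : v.1 ≤ v.2) (hv2 : v.2 ≤ Y1)
    (h0 : f v ≠ 0) : w ∈ v.2 := by
  have h1 := ev_zero hpZ hψ hf _ h0 v.2 (fun φ hφ => stT3 v hv φ.1 (ann_p hpZ φ) hφ)
  exact mem_of_ann hc v.2 hv2 w hw h1

/-- The three base maps. -/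
def j1 (p : E) (v : Submodule k E × Submodule k E) : Submodule k E × Submodule k E :=
  (Submodule.span k {p} ⊔ v.1, Submodule.span k {p} ⊔ v.2)

/-- The second base map. -/
def j2 (p : E) (v : Submodule k E × Submodule k E) : Submodule k E × Submodule k E :=
  (v.1, Submodule.span k {p} ⊔ v.2)

omit [FiniteDimensional k E] in
theorem j1_smul (g : E ≃ₗ[k] E) (hg : g p = p) (v : Submodule k E × Submodule k E) :
    j1 p (g • v) = g • j1 p v :=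
  Prod.ext (Geo2.smul_span_sup g hg v.1).symm (Geo2.smul_span_sup g hg v.2).symm

omit [FiniteDimensional k E] in
theorem j2_smul (g : E ≃ₗ[k] E) (hg : g p = p) (v : Submodule k E × Submodule k E) :
    j2 p (g • v) = g • j2 p v :=
  Prod.ext rfl (Geo2.smul_span_sup g hg v.2).symm

theorem vanishT (h : OD Q Y Yc) (hp : RadS Q Y p) (hp0 : p ≠ 0)
    (h1 : OD Q Y1 (Yc ⊔ Submodule.span k {p})) (hle : Y1 ≤ Y)
    (hpZ : p ∈ Yc ⊔ Submodule.span k {p}) {w : E}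
    {f : Submodule k E × Submodule k E → K} (hf : f ∈ WT K hpZ ψ w)
    (hs : f ∈ supS R K (PK Q Y a t))
    (e1 : ∀ v ∈ PK Q Y1 (a - 1) (t - 1), f (j1 p v) = 0)
    (e2 : ∀ v ∈ PK Q Y1 a (t - 1), f (j2 p v) = 0)
    (e3 : ∀ v ∈ PK Q Y1 a t, f v = 0) : f = 0 := by
  funext u
  by_cases hu : u ∈ PK Q Y a t
  · by_cases hp1 : p ∈ u.1
    · obtain ⟨a', t', rfl, rfl, v, hv, rfl⟩ := decT1 h hp hp0 h1 hle u hu hp1
      exact e1 v hv
    · by_cases hp2 : p ∈ u.2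
      · obtain ⟨t', rfl, v, hv, φ, hφ, e⟩ := decT2 h hp hp0 h1 hle u hu hp1 hp2
        rw [e (ann_p hpZ ⟨φ, hφ⟩)]
        exact Wt_translate hf ⟨φ, hφ⟩ _ (e2 v hv)
      · obtain ⟨v, hv, φ, hφ, e⟩ := decT3 h hp hp0 h1 hle u hu hp2
        rw [e (ann_p hpZ ⟨φ, hφ⟩)]
        exact Wt_translate hf ⟨φ, hφ⟩ _ (e3 v hv)
  · exact hs u hu

end weights

section ind

variable [ValuationRing R] [Finite k]

/-- The induction hypothesis. -/
def IHD (R K : Type*) {k E : Type*} [Field k] [AddCommGroup E] [Module k E]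
    [Field K] [CommRing R] [IsDomain R] [ValuationRing R] [Algebra R K]
    (Q : QuadraticForm k E) (m : ℕ) : Prop :=
  ∀ Y Yc : Submodule k E, OD Q Y Yc → finrank k Y < m → ∀ a t,
    Bd R K (GD Q Y Yc) (PK Q Y a t) (8 ^ finrank k Y)

omit [FiniteDimensional k E] in
theorem GD_fixZ {g : E ≃ₗ[k] E} (hg : g ∈ GD Q Y Yc) : ∀ z ∈ Yc, g z = z := hg.2.1

/-- Stabilizer of `w`. -/
def GF (Q : QuadraticForm k E) (Y Yc : Submodule k E) (w : E) : Set (E ≃ₗ[k] E) :=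
  {g | g ∈ GD Q Y Yc ∧ g w = w}

omit [FiniteDimensional k E] in
theorem inv_fix {g : E ≃ₗ[k] E} {w : E} (h : g w = w) : g⁻¹ w = w := by
  have h1 : g⁻¹ (g w) = w := g.symm_apply_apply w
  rwa [h] at h1

omit [FiniteDimensional k E] in
theorem mem_smul_fix {g : E ≃ₗ[k] E} {w : E} (h : g w = w) (A : Submodule k E) :
    w ∈ g • A ↔ w ∈ A := by
  rw [mem_smul]
  constructor
  · rintro ⟨x, hx, hxy⟩
    have : x = w := g.injective (by rw [hxy, h])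
    rwa [← this]
  · intro hy
    exact ⟨w, hy, h⟩

/-- Pairs with `w` in the first subspace. -/
theorem thr1 (hIH : IHD R K Q m) (h : OD Q Y Yc) (hm : finrank k Y ≤ m) {w : E}
    (hw : RadS Q Y w) (hw0 : w ≠ 0) (a t : ℕ) :
    Bd R K (GF Q Y Yc w) {v | v ∈ PK Q Y a t ∧ w ∈ v.1} (8 ^ (finrank k Y - 1)) := by
  obtain ⟨Y1, h1, hle, hfr⟩ := OD_line h hw hw0
  have hI := hIH Y1 _ h1 (by omega) (a - 1) (t - 1)
  rw [show finrank k Y - 1 = finrank k Y1 by omega]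
  have hwZ : w ∈ Yc ⊔ Submodule.span k {w} :=
    Submodule.mem_sup_right (Submodule.mem_span_singleton_self w)
  refine Bd_mono (Bd_im (j1 w) PK_stb (fun g hg v _ => j1_smul g (hg.2.1 w hwZ) v) hI)
    ?_ ?_ le_rfl
  · intro g hg
    exact ⟨GD_mono h1 hle le_sup_left hg, hg.2.1 w hwZ⟩
  · rintro v ⟨hv, hwv⟩
    obtain ⟨a', t', rfl, rfl, u, hu, rfl⟩ := decT1 h hw hw0 h1 hle v hv hwv
    exact ⟨u, hu, rfl⟩

omit [ValuationRing R] [Finite k] in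
theorem eT_mem (h : OD Q Y Yc) (hp : RadS Q Y p) (hpZ : p ∈ Yc ⊔ Submodule.span k {p})
    (φ : ↥((Yc ⊔ Submodule.span k {p}).dualAnnihilator)) : eT hpZ φ ∈ GD Q Y Yc := by
  refine tv_mem h hp φ.1 ?_ _
  exact Submodule.dualAnnihilator_anti le_sup_left φ.2

omit [FiniteDimensional k E] [ValuationRing R] [Finite k] in
theorem eT_fix (hpZ : p ∈ Yc ⊔ Submodule.span k {p})
    (φ : ↥((Yc ⊔ Submodule.span k {p}).dualAnnihilator)) : eT hpZ φ p = p := by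
  change p + φ.1 p • p = p
  rw [ann_p hpZ φ, zero_smul, add_zero]

/-- Pairs with `w` in the second but not in the first subspace. -/
theorem thr2 (hIH : IHD R K Q m) (hψ : ∃ c, ψ c ≠ 1) (hq : IsUnit ((Nat.card k : ℕ) : R))
    (h : OD Q Y Yc) (hm : finrank k Y ≤ m) {w : E}
    (hw : RadS Q Y w) (hw0 : w ≠ 0) (a t : ℕ) :
    Bd R K (GF Q Y Yc w) {v | v ∈ PK Q Y a t ∧ w ∉ v.1 ∧ w ∈ v.2}
      (8 ^ (finrank k Y - 1) + 8 ^ (finrank k Y - 2)) := by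
  classical
  obtain ⟨Y1, h1, hle, hfr⟩ := OD_line h hw hw0
  have hwZ : w ∈ Yc ⊔ Submodule.span k {w} :=
    Submodule.mem_sup_right (Submodule.mem_span_singleton_self w)
  have hsub : GD Q Y1 (Yc ⊔ Submodule.span k {w}) ⊆ GF Q Y Yc w :=
    fun g hg => ⟨GD_mono h1 hle le_sup_left hg, hg.2.1 w hwZ⟩
  have heH : ∀ φ, eT hwZ φ ∈ GF Q Y Yc w := fun φ => ⟨eT_mem h hw hwZ φ, eT_fix hwZ φ⟩
  have van : ∀ (x : E) (f : Submodule k E × Submodule k E → K), f ∈ WT K hwZ ψ x →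
      f ∈ supS R K {v | v ∈ PK Q Y a t ∧ w ∉ v.1 ∧ w ∈ v.2} →
      (∀ v ∈ PK Q Y1 a (t - 1), f (j2 w v) = 0) → f = 0 := by
    intro x f hf hs h2
    funext u
    by_cases hu : u ∈ {v | v ∈ PK Q Y a t ∧ w ∉ v.1 ∧ w ∈ v.2}
    · obtain ⟨t', rfl, v, hv, φ, hφ, e⟩ := decT2 h hw hw0 h1 hle u hu.1 hu.2.1 hu.2.2
      rw [e (ann_p hwZ ⟨φ, hφ⟩)]
      exact Wt_translate hf ⟨φ, hφ⟩ _ (h2 v hv)
    · exact hs u hu
  have hst2 : ∀ i, Stb (GD Q Y1 (Yc ⊔ Submodule.span k {w})) (j2 w '' PK Q Y1 a i) := by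
    intro i
    refine Stb_image (j2 w) PK_stb (fun g hg v => j2_smul g (hg.2.1 w hwZ) v)
      (fun g hg v => j2_smul g⁻¹ (inv_fix (hg.2.1 w hwZ)) v)
  have h10 : ∃ (H₀ : Set (E ≃ₗ[k] E)) (B₀ : Set (Submodule k E × Submodule k E)),
      Bd R K H₀ B₀ (8 ^ (finrank k Y - 1)) ∧ H₀ ⊆ GF Q Y Yc w ∧ Stb H₀ B₀ ∧
      (∀ g ∈ H₀, (∀ z ∈ Yc ⊔ Submodule.span k {w}, g z = z) ∧ g (0 : E) = 0) ∧
      (∀ f : Submodule k E × Submodule k E → K, f ∈ WT K hwZ ψ 0 →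
        f ∈ supS R K {v | v ∈ PK Q Y a t ∧ w ∉ v.1 ∧ w ∈ v.2} →
        (∀ v ∈ B₀, f v = 0) → f = 0) := by
    refine ⟨GD Q Y1 (Yc ⊔ Submodule.span k {w}), j2 w '' PK Q Y1 a (t - 1), ?_, hsub,
      hst2 _, fun g hg => ⟨hg.2.1, map_zero g⟩, ?_⟩
    · rw [show finrank k Y - 1 = finrank k Y1 by omega]
      exact Bd_im (j2 w) PK_stb (fun g hg v _ => j2_smul g (hg.2.1 w hwZ) v)
        (hIH Y1 _ h1 (by omega) a (t - 1))
    · intro f hf hs h2
      exact van 0 f hf hs (fun v hv => h2 _ ⟨v, hv, rfl⟩)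
  have h11 : ∀ x ∈ Y1, x ≠ 0 → RadS Q Y1 x →
      ∃ (H₀ : Set (E ≃ₗ[k] E)) (B₀ : Set (Submodule k E × Submodule k E)),
      Bd R K H₀ B₀ (8 ^ (finrank k Y - 2)) ∧ H₀ ⊆ GF Q Y Yc w ∧ Stb H₀ B₀ ∧
      (∀ g ∈ H₀, (∀ z ∈ Yc ⊔ Submodule.span k {w}, g z = z) ∧ g x = x) ∧
      (∀ f : Submodule k E × Submodule k E → K, f ∈ WT K hwZ ψ x →
        f ∈ supS R K {v | v ∈ PK Q Y a t ∧ w ∉ v.1 ∧ w ∈ v.2} →
        (∀ v ∈ B₀, f v = 0) → f = 0) := by
    intro x hx hx0 hxr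
    have hstx : Stb (GF Q Y1 (Yc ⊔ Submodule.span k {w}) x)
        {v | v ∈ PK Q Y1 a (t - 1) ∧ x ∈ v.1} := by
      intro g hg v
      have h3 := PK_stb (a := a) (t := t - 1) g hg.1 v
      change g • v ∈ PK Q Y1 a (t - 1) ∧ x ∈ g • v.1 ↔ v ∈ PK Q Y1 a (t - 1) ∧ x ∈ v.1
      rw [h3, mem_smul_fix hg.2]
    refine ⟨GF Q Y1 (Yc ⊔ Submodule.span k {w}) x,
      j2 w '' {v | v ∈ PK Q Y1 a (t - 1) ∧ x ∈ v.1}, ?_, fun g hg => hsub hg.1, ?_,
      fun g hg => ⟨hg.1.2.1, hg.2⟩, ?_⟩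
    · rw [show finrank k Y - 2 = finrank k Y1 - 1 by omega]
      exact Bd_im (j2 w) hstx (fun g hg v _ => j2_smul g (hg.1.2.1 w hwZ) v)
        (thr1 hIH h1 (by omega) hxr hx0 a (t - 1))
    · exact Stb_image (j2 w) hstx (fun g hg v => j2_smul g (hg.1.2.1 w hwZ) v)
        (fun g hg v => j2_smul g⁻¹ (inv_fix (hg.1.2.1 w hwZ)) v)
    · intro f hf hs h2
      refine van x f hf hs ?_
      intro v hv
      by_contra h0
      exact h0 (h2 _ ⟨v, ⟨hv, t2 hwZ h1.compl hψ hx hf v (le_trans hv.1 hv.2.1) h0⟩, rfl⟩)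
  have hrep : ∃ T' : Finset E, T'.card ≤ 1 ∧ (∀ x ∈ T', x ∈ Y1 ∧ x ≠ 0 ∧ RadS Q Y1 x) ∧
      ∀ x, x ≠ 0 → RadS Q Y1 x → ∃ y ∈ T', True := by
    by_cases hex : ∃ x, x ≠ 0 ∧ RadS Q Y1 x
    · obtain ⟨x, hx0, hx⟩ := hex
      exact ⟨{x}, by simp, by simpa using ⟨hx.mem, hx0, hx⟩, fun _ _ _ => ⟨x, by simp⟩⟩
    · push Not at hex
      exact ⟨∅, by simp, by simp, fun x hx0 hx => absurd hx (hex x hx0)⟩
  obtain ⟨T', hT'c, hT', hT'r⟩ := hrep
  have main := cliffT (K := K) (R := R) (ψ := ψ) hwZ hψ hq h1.compl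
      (S := {v | v ∈ PK Q Y a t ∧ w ∉ v.1 ∧ w ∈ v.2}) heH
      (fun i => match i with
        | 0 => {0}
        | 1 => T'
        | 2 => ∅)
      (fun i => match i with
        | 0 => 8 ^ (finrank k Y - 1)
        | 1 => 8 ^ (finrank k Y - 2)
        | 2 => 0) ?_ ?_
  · rw [Fin.sum_univ_three] at main
    refine Bd_mono main subset_rfl subset_rfl ?_
    have e1 : T'.card * 8 ^ (finrank k Y - 2) ≤ 8 ^ (finrank k Y - 2) := by
      calc T'.card * 8 ^ (finrank k Y - 2) ≤ 1 * 8 ^ (finrank k Y - 2) :=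
            Nat.mul_le_mul_right _ hT'c
        _ = _ := one_mul _
    simpa using e1
  · intro i
    match i with
    | 0 =>
      intro x hx
      have hx' : x = 0 := by simpa using hx
      rw [hx']
      exact h10
    | 1 =>
      intro x hx
      obtain ⟨b1, b2, b3⟩ := hT' x hx
      exact h11 x b1 b2 b3
    | 2 =>
      intro x hx
      simp at hx
  · intro x hx
    by_cases hx0 : x = 0
    · right
      rw [hx0]
      exact ⟨0, 0, by simp, 1, hsub GD_one, by rw [inv_one]; exact hsub GD_one,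
        fun z _ => rfl, rfl⟩
    · by_cases hxr : RadS Q Y1 x
      · right
        obtain ⟨y, hy, _⟩ := hT'r x hx0 hxr
        obtain ⟨b1, b2, b3⟩ := hT' y hy
        obtain ⟨g, hg, hgy⟩ := radTrans h1 b3 hxr b2 hx0
        exact ⟨1, y, hy, g, hsub hg, hsub (GD_inv g hg), hg.2.1, hgy⟩
      · left
        intro f hf hs
        refine van x f hf hs ?_
        intro v hv
        by_contra h0
        have h3 := t2 hwZ h1.compl hψ hx hf v (le_trans hv.1 hv.2.1) h0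
        exact hxr ⟨hx, hv.2.2.2.2.1 x (hv.1 h3), hv.2.2.2.2.2 x h3⟩

/-- Pairs with `w` (not in the radical) in the second subspace. -/
theorem thr3 (hIH : IHD R K Q m) (h : OD Q Y Yc) (hm : finrank k Y ≤ m) {w : E}
    (hw : w ∈ Y) (hwq : Q w = 0) (hwb : ∃ b ∈ Y, polar Q w b ≠ 0) (a t : ℕ) :
    Bd R K (GF Q Y Yc w) {v | v ∈ PK Q Y a t ∧ w ∈ v.2} (8 ^ (finrank k Y - 2)) := by
  obtain ⟨w', hww⟩ := exists_HPs hw hwq hwb
  have h2 := OD_hyp h hww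
  have hfr : finrank k (pp Q Y w w') + 2 = finrank k Y := Geo2.pp_finrank hww
  have hwZ : w ∈ Yc ⊔ (Submodule.span k {w} ⊔ Submodule.span k {w'}) :=
    Submodule.mem_sup_right (Submodule.mem_sup_left (Submodule.mem_span_singleton_self w))
  rw [show finrank k Y - 2 = finrank k (pp Q Y w w') by omega]
  refine Bd_mono (Bd_im (j2 w) PK_stb (fun g hg v _ => j2_smul g (hg.2.1 w hwZ) v)
    (hIH _ _ h2 (by omega) a (t - 1))) ?_ ?_ le_rfl
  · intro g hg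
    exact ⟨GD_mono h2 Geo2.pp_le le_sup_left hg, hg.2.1 w hwZ⟩
  · rintro v ⟨hv, hwv⟩
    obtain ⟨t', rfl, T2, hT2, e⟩ := thrN hww v hv hwv
    refine ⟨(v.1, T2), hT2, ?_⟩
    unfold j2
    rw [← e]

theorem arithD (m : ℕ) (hm : 1 ≤ m) :
    3 * 8 ^ (m - 1) + (3 * 8 ^ (m - 2) + 8 ^ (m - 3)) + 8 ^ (m - 3) ≤ 8 ^ m := by
  rcases Nat.lt_or_ge m 3 with h | h
  · interval_cases m <;> norm_num
  · obtain ⟨n, rfl⟩ := Nat.exists_eq_add_of_le h
    rw [show 3 + n - 1 = n + 2 by omega, show 3 + n - 2 = n + 1 by omega,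
      show 3 + n - 3 = n by omega, show 3 + n = n + 3 by omega]
    simp only [pow_add]
    omega

theorem stepD (hIH : IHD R K Q m) (hψ : ∃ c, ψ c ≠ 1) (hq : IsUnit ((Nat.card k : ℕ) : R))
    (h : OD Q Y Yc) (hm : finrank k Y = m) (hp : RadS Q Y p) (hp0 : p ≠ 0) (a t : ℕ) :
    Bd R K (GD Q Y Yc) (PK Q Y a t) (8 ^ m) := by
  classical
  obtain ⟨Y1, h1, hle, hfr⟩ := OD_line h hp hp0
  have hpZ : p ∈ Yc ⊔ Submodule.span k {p} :=
    Submodule.mem_sup_right (Submodule.mem_span_singleton_self p)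
  have hsub : GD Q Y1 (Yc ⊔ Submodule.span k {p}) ⊆ GD Q Y Yc := GD_mono h1 hle le_sup_left
  have heH : ∀ φ, eT hpZ φ ∈ GD Q Y Yc := fun φ => eT_mem h hp hpZ φ
  set G1 := GD Q Y1 (Yc ⊔ Submodule.span k {p}) with hG1
  have hgp : ∀ g ∈ G1, g p = p := fun g hg => hg.2.1 p hpZ
  have hst1 : ∀ (H : Set (E ≃ₗ[k] E)) (S : Set (Submodule k E × Submodule k E)),
      H ⊆ G1 → Stb H S → Stb H (j1 p '' S) := fun H S hH hS =>
    Stb_image (j1 p) hS (fun g hg v => j1_smul g (hgp g (hH hg)) v)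
      (fun g hg v => j1_smul g⁻¹ (inv_fix (hgp g (hH hg))) v)
  have hst2 : ∀ (H : Set (E ≃ₗ[k] E)) (S : Set (Submodule k E × Submodule k E)),
      H ⊆ G1 → Stb H S → Stb H (j2 p '' S) := fun H S hH hS =>
    Stb_image (j2 p) hS (fun g hg v => j2_smul g (hgp g (hH hg)) v)
      (fun g hg v => j2_smul g⁻¹ (inv_fix (hgp g (hH hg))) v)
  have hbd2 : ∀ (H : Set (E ≃ₗ[k] E)) (S : Set (Submodule k E × Submodule k E)) (n : ℕ),
      H ⊆ G1 → Stb H S → Bd R K H S n → Bd R K H (j2 p '' S) n := fun H S n hH hS hB =>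
    Bd_im (j2 p) hS (fun g hg v _ => j2_smul g (hgp g (hH hg)) v) hB
  have hbd1 : ∀ (H : Set (E ≃ₗ[k] E)) (S : Set (Submodule k E × Submodule k E)) (n : ℕ),
      H ⊆ G1 → Stb H S → Bd R K H S n → Bd R K H (j1 p '' S) n := fun H S n hH hS hB =>
    Bd_im (j1 p) hS (fun g hg v _ => j1_smul g (hgp g (hH hg)) v) hB
  have hIH1 : IHD R K Q (m - 1) := fun Y' Yc' hO hlt => hIH Y' Yc' hO (by omega)
  have hGF : ∀ x, GF Q Y1 (Yc ⊔ Submodule.span k {p}) x ⊆ G1 := fun x g hg => hg.1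
  have hstP : ∀ i j, Stb G1 (PK Q Y1 i j) := fun i j => PK_stb
  -- weight zero
  have h10 : ∃ (H₀ : Set (E ≃ₗ[k] E)) (B₀ : Set (Submodule k E × Submodule k E)),
      Bd R K H₀ B₀ (3 * 8 ^ (m - 1)) ∧ H₀ ⊆ GD Q Y Yc ∧ Stb H₀ B₀ ∧
      (∀ g ∈ H₀, (∀ z ∈ Yc ⊔ Submodule.span k {p}, g z = z) ∧ g (0 : E) = 0) ∧
      (∀ f : Submodule k E × Submodule k E → K, f ∈ WT K hpZ ψ 0 →
        f ∈ supS R K (PK Q Y a t) → (∀ v ∈ B₀, f v = 0) → f = 0) := by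
    refine ⟨G1, (j1 p '' PK Q Y1 (a - 1) (t - 1) ∪ j2 p '' PK Q Y1 a (t - 1)) ∪ PK Q Y1 a t,
      ?_, hsub, Stb_un (Stb_un (hst1 _ _ subset_rfl (hstP _ _))
        (hst2 _ _ subset_rfl (hstP _ _))) (hstP _ _), fun g hg => ⟨hg.2.1, map_zero g⟩, ?_⟩
    · have e : 3 * 8 ^ (m - 1) = 8 ^ finrank k Y1 + 8 ^ finrank k Y1 + 8 ^ finrank k Y1 := by
        rw [show m - 1 = finrank k Y1 by omega]
        ring
      rw [e]
      have hI := hIH Y1 _ h1 (by omega)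
      exact Bd_union (Stb_un (hst1 _ _ subset_rfl (hstP _ _))
          (hst2 _ _ subset_rfl (hstP _ _)))
        (Bd_union (hst1 _ _ subset_rfl (hstP _ _))
          (hbd1 _ _ _ subset_rfl (hstP _ _) (hI (a - 1) (t - 1)))
          (hbd2 _ _ _ subset_rfl (hstP _ _) (hI a (t - 1)))) (hI a t)
    · intro f hf hs h0
      exact vanishT h hp hp0 h1 hle hpZ hf hs
        (fun v hv => h0 _ (Or.inl (Or.inl ⟨v, hv, rfl⟩)))
        (fun v hv => h0 _ (Or.inl (Or.inr ⟨v, hv, rfl⟩))) (fun v hv => h0 _ (Or.inr hv))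
  have hstm : ∀ (x : E) (i j : ℕ) (P : Submodule k E × Submodule k E → Prop),
      (∀ g : E ≃ₗ[k] E, g x = x → ∀ v, P (g • v) ↔ P v) →
      Stb (GF Q Y1 (Yc ⊔ Submodule.span k {p}) x) {v | v ∈ PK Q Y1 i j ∧ P v} := by
    intro x i j P hP g hg v
    have h3 := PK_stb (a := i) (t := j) g hg.1 v
    change g • v ∈ PK Q Y1 i j ∧ P (g • v) ↔ v ∈ PK Q Y1 i j ∧ P v
    rw [h3, hP g hg.2]
  -- radical weights
  have h11 : ∀ x ∈ Y1, x ≠ 0 → RadS Q Y1 x →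
      ∃ (H₀ : Set (E ≃ₗ[k] E)) (B₀ : Set (Submodule k E × Submodule k E)),
      Bd R K H₀ B₀ (3 * 8 ^ (m - 2) + 8 ^ (m - 3)) ∧ H₀ ⊆ GD Q Y Yc ∧ Stb H₀ B₀ ∧
      (∀ g ∈ H₀, (∀ z ∈ Yc ⊔ Submodule.span k {p}, g z = z) ∧ g x = x) ∧
      (∀ f : Submodule k E × Submodule k E → K, f ∈ WT K hpZ ψ x →
        f ∈ supS R K (PK Q Y a t) → (∀ v ∈ B₀, f v = 0) → f = 0) := by
    intro x hx hx0 hxr
    have s1 : ∀ i j, Stb (GF Q Y1 (Yc ⊔ Submodule.span k {p}) x)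
        {v | v ∈ PK Q Y1 i j ∧ x ∈ v.1} := fun i j =>
      hstm x i j (fun v => x ∈ v.1) (fun g hg v => mem_smul_fix hg v.1)
    have s2 : ∀ i j, Stb (GF Q Y1 (Yc ⊔ Submodule.span k {p}) x)
        {v | v ∈ PK Q Y1 i j ∧ x ∉ v.1 ∧ x ∈ v.2} := fun i j =>
      hstm x i j (fun v => x ∉ v.1 ∧ x ∈ v.2) (fun g hg v =>
        and_congr (not_congr (mem_smul_fix hg v.1)) (mem_smul_fix hg v.2))
    refine ⟨GF Q Y1 (Yc ⊔ Submodule.span k {p}) x,
      (j2 p '' {v | v ∈ PK Q Y1 a (t - 1) ∧ x ∈ v.1} ∪ {v | v ∈ PK Q Y1 a t ∧ x ∈ v.1}) ∪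
        {v | v ∈ PK Q Y1 a t ∧ x ∉ v.1 ∧ x ∈ v.2}, ?_, fun g hg => hsub (hGF x hg),
      Stb_un (Stb_un (hst2 _ _ (hGF x) (s1 _ _)) (s1 _ _)) (s2 _ _),
      fun g hg => ⟨hg.1.2.1, hg.2⟩, ?_⟩
    · have e : 3 * 8 ^ (m - 2) + 8 ^ (m - 3) = 8 ^ (finrank k Y1 - 1) + 8 ^ (finrank k Y1 - 1)
          + (8 ^ (finrank k Y1 - 1) + 8 ^ (finrank k Y1 - 2)) := by
        rw [show m - 2 = finrank k Y1 - 1 by omega, show m - 3 = finrank k Y1 - 2 by omega]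
        ring
      rw [e]
      have hT := thr1 hIH1 h1 (by omega) hxr hx0
      exact Bd_union (Stb_un (hst2 _ _ (hGF x) (s1 _ _)) (s1 _ _))
        (Bd_union (hst2 _ _ (hGF x) (s1 _ _)) (hbd2 _ _ _ (hGF x) (s1 _ _) (hT a (t - 1)))
          (hT a t))
        (thr2 (ψ := ψ) hIH1 hψ hq h1 (by omega) hxr hx0 a t)
    · intro f hf hs h0
      refine vanishT h hp hp0 h1 hle hpZ hf hs ?_ ?_ ?_
      · intro v hv
        by_contra hne
        exact hx0 (t1 hpZ h1.compl hψ hx hf v hne)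
      · intro v hv
        by_contra hne
        exact hne (h0 _ (Or.inl (Or.inl ⟨v, ⟨hv, t2 hpZ h1.compl hψ hx hf v
          (le_trans hv.1 hv.2.1) hne⟩, rfl⟩)))
      · intro v hv
        by_contra hne
        have h3 := t3 hpZ h1.compl hψ hx hf v hv.1 hv.2.1 hne
        by_cases h4 : x ∈ v.1
        · exact hne (h0 _ (Or.inl (Or.inr ⟨hv, h4⟩)))
        · exact hne (h0 _ (Or.inr ⟨hv, h4, h3⟩))
  -- singular weights outside the radical
  have h12 : ∀ x ∈ Y1, Q x = 0 → (∃ b ∈ Y1, polar Q x b ≠ 0) →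
      ∃ (H₀ : Set (E ≃ₗ[k] E)) (B₀ : Set (Submodule k E × Submodule k E)),
      Bd R K H₀ B₀ (8 ^ (m - 3)) ∧ H₀ ⊆ GD Q Y Yc ∧ Stb H₀ B₀ ∧
      (∀ g ∈ H₀, (∀ z ∈ Yc ⊔ Submodule.span k {p}, g z = z) ∧ g x = x) ∧
      (∀ f : Submodule k E × Submodule k E → K, f ∈ WT K hpZ ψ x →
        f ∈ supS R K (PK Q Y a t) → (∀ v ∈ B₀, f v = 0) → f = 0) := by
    intro x hx hxq hxb
    have hx0 : x ≠ 0 := by
      rintro rfl
      obtain ⟨b, _, hb⟩ := hxb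
      exact hb (polar_zero_left _ _)
    refine ⟨GF Q Y1 (Yc ⊔ Submodule.span k {p}) x, {v | v ∈ PK Q Y1 a t ∧ x ∈ v.2}, ?_,
      fun g hg => hsub (hGF x hg),
      hstm x a t (fun v => x ∈ v.2) (fun g hg v => mem_smul_fix hg v.2),
      fun g hg => ⟨hg.1.2.1, hg.2⟩, ?_⟩
    · rw [show m - 3 = finrank k Y1 - 2 by omega]
      exact thr3 hIH1 h1 (by omega) hx hxq hxb a t
    · intro f hf hs h0
      refine vanishT h hp hp0 h1 hle hpZ hf hs ?_ ?_ ?_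
      · intro v hv
        by_contra hne
        exact hx0 (t1 hpZ h1.compl hψ hx hf v hne)
      · intro v hv
        by_contra hne
        have h3 := t2 hpZ h1.compl hψ hx hf v (le_trans hv.1 hv.2.1) hne
        obtain ⟨b, hb, hb'⟩ := hxb
        exact hb' (hv.2.2.2.2.2 x h3 b hb)
      · intro v hv
        by_contra hne
        exact hne (h0 _ ⟨hv, t3 hpZ h1.compl hψ hx hf v hv.1 hv.2.1 hne⟩)
  have hrep : ∀ P : E → Prop, ∃ T' : Finset E, T'.card ≤ 1 ∧ (∀ x ∈ T', P x) ∧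
      ∀ x, P x → ∃ y ∈ T', True := by
    intro P
    by_cases hex : ∃ x, P x
    · obtain ⟨x, hx⟩ := hex
      exact ⟨{x}, by simp, by simpa using hx, fun _ _ => ⟨x, by simp⟩⟩
    · push Not at hex
      exact ⟨∅, by simp, by simp, fun x hx => absurd hx (hex x)⟩
  obtain ⟨T1', hT1c, hT1, hT1r⟩ := hrep (fun x => x ≠ 0 ∧ RadS Q Y1 x)
  obtain ⟨T2', hT2c, hT2, hT2r⟩ :=
    hrep (fun x => x ∈ Y1 ∧ Q x = 0 ∧ ∃ b ∈ Y1, polar Q x b ≠ 0)
  have main := cliffT (K := K) (R := R) (ψ := ψ) hpZ hψ hq h1.compl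
      (S := PK Q Y a t) heH
      (fun i => match i with
        | 0 => {0}
        | 1 => T1'
        | 2 => T2')
      (fun i => match i with
        | 0 => 3 * 8 ^ (m - 1)
        | 1 => 3 * 8 ^ (m - 2) + 8 ^ (m - 3)
        | 2 => 8 ^ (m - 3)) ?_ ?_
  · rw [Fin.sum_univ_three] at main
    refine Bd_mono main subset_rfl subset_rfl (le_trans ?_ (arithD m (by omega)))
    refine Nat.add_le_add (Nat.add_le_add ?_ ?_) ?_
    · simp
    · calc T1'.card * (3 * 8 ^ (m - 2) + 8 ^ (m - 3))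
          ≤ 1 * (3 * 8 ^ (m - 2) + 8 ^ (m - 3)) := Nat.mul_le_mul_right _ hT1c
        _ = _ := one_mul _
    · calc T2'.card * 8 ^ (m - 3) ≤ 1 * 8 ^ (m - 3) := Nat.mul_le_mul_right _ hT2c
        _ = _ := one_mul _
  · intro i
    match i with
    | 0 =>
      intro x hx
      have hx' : x = 0 := by simpa using hx
      rw [hx']
      exact h10
    | 1 =>
      intro x hx
      exact h11 x (hT1 x hx).2.mem (hT1 x hx).1 (hT1 x hx).2
    | 2 =>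
      intro x hx
      exact h12 x (hT2 x hx).1 (hT2 x hx).2.1 (hT2 x hx).2.2
  · intro x hx
    by_cases hx0 : x = 0
    · right
      rw [hx0]
      exact ⟨0, 0, by simp, 1, hsub GD_one, by rw [inv_one]; exact hsub GD_one,
        fun z _ => rfl, rfl⟩
    · by_cases hxr : RadS Q Y1 x
      · right
        obtain ⟨y, hy, _⟩ := hT1r x ⟨hx0, hxr⟩
        obtain ⟨b2, b3⟩ := hT1 y hy
        obtain ⟨g, hg, hgy⟩ := radTrans h1 b3 hxr b2 hx0
        exact ⟨1, y, hy, g, hsub hg, hsub (GD_inv g hg), hg.2.1, hgy⟩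
      · by_cases hxs : Q x = 0 ∧ ∃ b ∈ Y1, polar Q x b ≠ 0
        · right
          obtain ⟨y, hy, _⟩ := hT2r x ⟨hx, hxs.1, hxs.2⟩
          obtain ⟨c1, c2, c3⟩ := hT2 y hy
          obtain ⟨g, hg, hgy⟩ := nonradTrans y x c1 hx c2 hxs.1 c3 hxs.2
          have hg' : g ∈ G1 := Gr_sub_GD h1 hg
          exact ⟨2, y, hy, g, hsub hg', hsub (GD_inv g hg'), hg'.2.1, hgy⟩
        · left
          intro f hf hs
          have hxT : ∀ v ∈ PK Q Y1 a t, x ∈ v.2 → False := by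
            intro v hv hxv
            have hxq := hv.2.2.2.2.1 x hxv
            refine hxr ⟨hx, hxq, ?_⟩
            intro y hy
            by_contra hne
            exact hxs ⟨hxq, y, hy, hne⟩
          refine vanishT h hp hp0 h1 hle hpZ hf hs ?_ ?_ ?_
          · intro v hv
            by_contra hne
            exact hx0 (t1 hpZ h1.compl hψ hx hf v hne)
          · intro v hv
            by_contra hne
            have h3 := t2 hpZ h1.compl hψ hx hf v (le_trans hv.1 hv.2.1) hne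
            exact hxr ⟨hx, hv.2.2.2.2.1 x (hv.1 h3), hv.2.2.2.2.2 x h3⟩
          · intro v hv
            by_contra hne
            exact hxT v hv (t3 hpZ h1.compl hψ hx hf v hv.1 hv.2.1 hne)

theorem Bd_D (hψ : ∃ c, ψ c ≠ 1) (hq : IsUnit ((Nat.card k : ℕ) : R)) (m : ℕ) :
    ∀ Y Yc : Submodule k E, OD Q Y Yc → finrank k Y = m → ∀ a t,
      Bd R K (GD Q Y Yc) (PK Q Y a t) (8 ^ m) := by
  induction m using Nat.strong_induction_on with
  | _ m ih =>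
    intro Y Yc h hm a t
    have hIH : IHD R K Q m := fun Y' Yc' h' hlt a' t' => ih _ hlt Y' Yc' h' rfl a' t'
    by_cases hex : ∃ p, p ≠ 0 ∧ RadS Q Y p
    · obtain ⟨p, hp0, hp⟩ := hex
      exact stepD hIH hψ hq h hm hp hp0 a t
    · push Not at hex
      have hnd : ND Q Y := by
        intro x hx hx0 hxq
        by_contra hcon
        push Not at hcon
        exact hex x hx0 ⟨hx, hxq, hcon⟩
      have hB := Bd_main (K := K) (R := R) (Q := Q) hψ hq m Y hm hnd t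
      have hB2 : Bd R K ((fun g => g) '' Gr Q Y)
          ((fun T => ((⊥ : Submodule k E), T)) '' Sk Q Y t) (3 ^ m) := by
        refine Bd_transport (fun g => g) (fun T => ((⊥ : Submodule k E), T))
          Geo1.Sk_stb ?_ hB
        intro g _ T _
        rw [Prod.smul_mk]
        congr 1
        rw [smul_def, Submodule.map_bot]
      refine Bd_mono hB2 ?_ ?_ (Nat.pow_le_pow_left (by norm_num) m)
      · rintro _ ⟨g, hg, rfl⟩
        exact Gr_sub_GD h hg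
      · intro v hv
        refine ⟨v.2, ⟨hv.2.1, hv.2.2.2.1, hv.2.2.2.2.1⟩, ?_⟩
        have hbot : v.1 = ⊥ := by
          rw [Submodule.eq_bot_iff]
          intro x hx
          by_contra hx0
          exact hex x hx0 ⟨hv.2.1 (hv.1 hx), hv.2.2.2.2.1 x (hv.1 hx), hv.2.2.2.2.2 x hx⟩
        exact Prod.ext hbot.symm rfl

end ind

end SY
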