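import Pool.Agent.Helper60.OG.Main

/-!
Project SY (MP_0bd1d1_al): symplectic groups, q odd.  Definitions.
-/

namespace SY

open QuadraticMap Module OG

section Degenerate

variable {k E : Type*} [Field k] [AddCommGroup E] [Module k E]

/-- Orthogonal decompositions. -/
structure OD (Q : QuadraticForm k E) (Y Yc : Submodule k E) : Prop where
  compl : IsCompl Y Yc
  orth : ∀ y ∈ Y, ∀ z ∈ Yc, polar Q y z = 0

/-- Isometries stabilizing `Y` and trivial on `Yc`. -/
def GD (Q : QuadraticForm k E) (Y Yc : Submodule k E) : Set (E ≃ₗ[k] E) :=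
  {g | (∀ x, Q (g x) = Q x) ∧ (∀ z ∈ Yc, g z = z) ∧ ∀ y ∈ Y, g y ∈ Y}

/-- Pairs `A ≤ T`, `T` totally singular in `Y`, `A` in the radical of `Y`. -/
def PK (Q : QuadraticForm k E) (Y : Submodule k E) (a t : ℕ) :
    Set (Submodule k E × Submodule k E) :=
  {w | w.1 ≤ w.2 ∧ w.2 ≤ Y ∧ finrank k w.1 = a ∧ finrank k w.2 = t ∧ (∀ x ∈ w.2, Q x = 0) ∧
    ∀ x ∈ w.1, ∀ y ∈ Y, polar Q x y = 0}

/-- Singular vectors in the radical of `Y`. -/
structure RadS (Q : QuadraticForm k E) (Y : Submodule k E) (x : E) : Prop where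
  mem : x ∈ Y
  q : Q x = 0
  r : ∀ y ∈ Y, polar Q x y = 0

/-- Transvections `x + φ(x) p`. -/
def tv (p : E) (φ : Dual k E) (h : φ p = 0) : E ≃ₗ[k] E :=
  LinearEquiv.ofLinearMap (LinearMap.id + φ.smulRight p) (LinearMap.id - φ.smulRight p)
    (by
      ext x
      simp [h])
    (by
      ext x
      simp [h])

theorem tv_apply (p : E) (φ : Dual k E) (h : φ p = 0) (x : E) :
    tv p φ h x = x + φ x • p := rfl

end Degenerate

section Siegel

variable (k E : Type*) [Field k] [AddCommGroup E] [Module k E]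

/-- The standard symplectic form on `E × E^*`. -/
def om {k E : Type*} [Field k] [AddCommGroup E] [Module k E]
    (u v : E × Dual k E) : k := v.2 u.1 - u.2 v.1

/-- The symplectic group of the standard form on `E × E^*`. -/
def SpG : Subgroup ((E × Dual k E) ≃ₗ[k] (E × Dual k E)) where
  carrier := {g | ∀ u v, om (g u) (g v) = om u v}
  one_mem' := fun _ _ => rfl
  mul_mem' := by
    intro g h hg hh u v
    change om (g (h u)) (g (h v)) = om u v
    rw [hg, hh]
  inv_mem' := by
    intro g hg u v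
    have h1 : ∀ x, g (g⁻¹ x) = x := fun x => g.apply_symm_apply x
    have h2 := hg (g⁻¹ u) (g⁻¹ v)
    rw [h1, h1] at h2
    exact h2.symm

/-- Totally isotropic subspaces of dimension `j`. -/
def IsoT (j : ℕ) : Set (Submodule k (E × Dual k E)) :=
  {W | finrank k W = j ∧ ∀ u ∈ W, ∀ v ∈ W, om u v = 0}

/-- Symmetric maps from `E^*` to `E`. -/
def SymS : Submodule k (Dual k E →ₗ[k] E) where
  carrier := {σ | ∀ f g : Dual k E, g (σ f) = f (σ g)}
  zero_mem' := by
    intro f g
    simp
  add_mem' := by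
    intro a b ha hb f g
    rw [LinearMap.add_apply, LinearMap.add_apply, map_add, map_add, ha f g, hb f g]
  smul_mem' := by
    intro c a ha f g
    rw [LinearMap.smul_apply, LinearMap.smul_apply, map_smul, map_smul, ha f g]

variable {k E}

/-- The symmetric map `f ↦ f(x) x`. -/
def sq (x : E) : Dual k E →ₗ[k] E := (Dual.eval k E x).smulRight x

theorem sq_apply (x : E) (f : Dual k E) : sq x f = f x • x := rfl

/-- The Siegel transformation `(x, f) ↦ (x + σ f, f)`. -/
def uS (σ : Dual k E →ₗ[k] E) : (E × Dual k E) ≃ₗ[k] (E × Dual k E) :=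
  LinearEquiv.ofLinearMap
    ((LinearMap.fst k E (Dual k E) + σ ∘ₗ LinearMap.snd k E (Dual k E)).prod
      (LinearMap.snd k E (Dual k E)))
    ((LinearMap.fst k E (Dual k E) - σ ∘ₗ LinearMap.snd k E (Dual k E)).prod
      (LinearMap.snd k E (Dual k E)))
    (by ext x <;> simp)
    (by ext x <;> simp)

theorem uS_apply (σ : Dual k E →ₗ[k] E) (u : E × Dual k E) : uS σ u = (u.1 + σ u.2, u.2) := rfl

/-- The Levi transformation `(x, f) ↦ (g x, f ∘ g⁻¹)`. -/
def gS (g : E ≃ₗ[k] E) : (E × Dual k E) ≃ₗ[k] (E × Dual k E) :=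
  g.prodCongr g.symm.dualMap

theorem gS_apply (g : E ≃ₗ[k] E) (u : E × Dual k E) :
    gS g u = (g u.1, u.2 ∘ₗ (g.symm : E →ₗ[k] E)) := rfl

/-- The base point of the pair `A ≤ T`. -/
def bp (w : Submodule k E × Submodule k E) : Submodule k (E × Dual k E) :=
  w.1.prod w.2.dualAnnihilator

end Siegel

end SY
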