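import Pool.Agent.Helper60.SY.Defs

/-!
Project SY (MP_0bd1d1_al), module S1: elementary facts on Siegel and Levi transformations.
-/

set_option autoImplicit false

namespace SY.S1

open QuadraticMap Module OG

section S

variable {k E : Type*} [Field k] [AddCommGroup E] [Module k E] {j : ℕ}

theorem sq_mem (x : E) : sq x ∈ SymS k E := by
  intro f g
  rw [sq_apply, sq_apply, map_smul, map_smul, smul_eq_mul, smul_eq_mul, mul_comm]

theorem uS_mem (σ : Dual k E →ₗ[k] E) (hσ : σ ∈ SymS k E) : uS σ ∈ SpG k E := by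
  intro u v
  have h : v.2 (σ u.2) = u.2 (σ v.2) := hσ u.2 v.2
  rw [uS_apply, uS_apply]
  unfold om
  simp only [map_add]
  rw [h]
  ring

theorem uS_add (σ τ : Dual k E →ₗ[k] E) : uS (σ + τ) = uS σ * uS τ := by
  apply LinearEquiv.ext
  intro x
  change uS (σ + τ) x = uS σ (uS τ x)
  rw [uS_apply, uS_apply, uS_apply]
  refine Prod.ext ?_ rfl
  change x.1 + (σ + τ) x.2 = x.1 + τ x.2 + σ x.2
  rw [LinearMap.add_apply]
  abel

theorem gS_mem (g : E ≃ₗ[k] E) : gS g ∈ SpG k E := by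
  intro u v
  rw [gS_apply, gS_apply]
  unfold om
  simp

theorem gS_inv (g : E ≃ₗ[k] E) : gS g⁻¹ = (gS g)⁻¹ := by
  apply eq_inv_of_mul_eq_one_left
  apply LinearEquiv.ext
  intro x
  change gS g⁻¹ (gS g x) = x
  rw [gS_apply, gS_apply]
  refine Prod.ext ?_ ?_
  · exact g.symm_apply_apply x.1
  · apply LinearMap.ext
    intro y
    change x.2 (g.symm (g y)) = x.2 y
    rw [g.symm_apply_apply]

theorem conj_mem (g : E ≃ₗ[k] E) (σ : Dual k E →ₗ[k] E) (hσ : σ ∈ SymS k E) :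
    (g : E →ₗ[k] E) ∘ₗ σ ∘ₗ (g : E →ₗ[k] E).dualMap ∈ SymS k E := by
  intro f f'
  exact hσ (f ∘ₗ (g : E →ₗ[k] E)) (f' ∘ₗ (g : E →ₗ[k] E))

theorem gS_conj (g : E ≃ₗ[k] E) (σ : Dual k E →ₗ[k] E) :
    gS g * uS σ * (gS g)⁻¹
      = uS ((g : E →ₗ[k] E) ∘ₗ σ ∘ₗ (g : E →ₗ[k] E).dualMap) := by
  rw [mul_inv_eq_iff_eq_mul]
  apply LinearEquiv.ext
  intro u
  change gS g (uS σ u) = uS ((g : E →ₗ[k] E) ∘ₗ σ ∘ₗ (g : E →ₗ[k] E).dualMap) (gS g u)
  rw [gS_apply, uS_apply, uS_apply, gS_apply]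
  refine Prod.ext ?_ rfl
  change g (u.1 + σ u.2) = g u.1 + g (σ ((u.2 ∘ₗ (g.symm : E →ₗ[k] E)) ∘ₗ (g : E →ₗ[k] E)))
  have h : (u.2 ∘ₗ (g.symm : E →ₗ[k] E)) ∘ₗ (g : E →ₗ[k] E) = u.2 := by
    apply LinearMap.ext
    intro y
    change u.2 (g.symm (g y)) = u.2 y
    rw [g.symm_apply_apply]
  rw [h, map_add]

theorem sq_conj (g : E ≃ₗ[k] E) (x : E) :
    (g : E →ₗ[k] E) ∘ₗ sq x ∘ₗ (g : E →ₗ[k] E).dualMap = sq (g x) := by
  apply LinearMap.ext
  intro f
  change g (f (g x) • x) = f (g x) • g x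
  rw [map_smul]

theorem bp_smul (g : E ≃ₗ[k] E) (w : Submodule k E × Submodule k E) :
    gS g • bp w = bp (g • w) := by
  apply Submodule.ext
  rintro ⟨x, f⟩
  rw [mem_smul]
  constructor
  · rintro ⟨u, hu, hux⟩
    have hu1 : u.1 ∈ w.1 := hu.1
    have hu2 : u.2 ∈ w.2.dualAnnihilator := hu.2
    rw [gS_apply] at hux
    have e1 : g u.1 = x := congrArg Prod.fst hux
    have e2 : u.2 ∘ₗ (g.symm : E →ₗ[k] E) = f := congrArg Prod.snd hux
    refine ⟨?_, ?_⟩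
    · exact ⟨u.1, hu1, e1⟩
    · change f ∈ (g • w.2).dualAnnihilator
      rw [Submodule.mem_dualAnnihilator]
      intro y hy
      obtain ⟨z, hz, rfl⟩ := (mem_smul g w.2 y).1 hy
      rw [← e2]
      change u.2 (g.symm (g z)) = 0
      rw [g.symm_apply_apply]
      exact (Submodule.mem_dualAnnihilator _).1 hu2 z hz
  · rintro ⟨hx, hf⟩
    have hx' : x ∈ g • w.1 := hx
    have hf' : f ∈ (g • w.2).dualAnnihilator := hf
    obtain ⟨z, hz, hzx⟩ := (mem_smul g w.1 x).1 hx'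
    refine ⟨(z, f ∘ₗ (g : E →ₗ[k] E)), ⟨hz, ?_⟩, ?_⟩
    · change f ∘ₗ (g : E →ₗ[k] E) ∈ w.2.dualAnnihilator
      rw [Submodule.mem_dualAnnihilator]
      intro y hy
      exact (Submodule.mem_dualAnnihilator _).1 hf' (g y) ⟨y, hy, rfl⟩
    · rw [gS_apply]
      refine Prod.ext hzx ?_
      apply LinearMap.ext
      intro y
      change f (g (g.symm y)) = f y
      rw [g.apply_symm_apply]

theorem IsoT_stb : Stb (SpG k E : Set ((E × Dual k E) ≃ₗ[k] (E × Dual k E)))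
    (IsoT k E j) := by
  intro g hg W
  have hg' : ∀ u v, om (g u) (g v) = om u v := hg
  have hfr : finrank k (g • W : Submodule k (E × Dual k E)) = finrank k W :=
    LinearEquiv.finrank_map_eq g W
  constructor
  · rintro ⟨h1, h2⟩
    refine ⟨hfr ▸ h1, ?_⟩
    intro u hu v hv
    rw [← hg']
    exact h2 _ ⟨u, hu, rfl⟩ _ ⟨v, hv, rfl⟩
  · rintro ⟨h1, h2⟩
    refine ⟨hfr.trans h1, ?_⟩
    intro u' hu' v' hv'
    obtain ⟨u, hu, rfl⟩ := (mem_smul g W u').1 hu'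
    obtain ⟨v, hv, rfl⟩ := (mem_smul g W v').1 hv'
    rw [hg']
    exact h2 u hu v hv

/-- a Siegel transformation that maps the annihilator of `T` into `A` fixes the base point -/
private theorem st_gen (σ : Dual k E →ₗ[k] E) (w : Submodule k E × Submodule k E)
    (h : ∀ f ∈ w.2.dualAnnihilator, σ f ∈ w.1) : uS σ • bp w = bp w := by
  apply Submodule.ext
  intro y
  rw [mem_smul]
  constructor
  · rintro ⟨u, hu, rfl⟩
    have hu1 : u.1 ∈ w.1 := hu.1
    have hu2 : u.2 ∈ w.2.dualAnnihilator := hu.2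
    rw [uS_apply]
    exact ⟨w.1.add_mem hu1 (h u.2 hu2), hu2⟩
  · intro hy
    have hy1 : y.1 ∈ w.1 := hy.1
    have hy2 : y.2 ∈ w.2.dualAnnihilator := hy.2
    refine ⟨(y.1 - σ y.2, y.2), ⟨w.1.sub_mem hy1 (h y.2 hy2), hy2⟩, ?_⟩
    rw [uS_apply]
    refine Prod.ext ?_ rfl
    change y.1 - σ y.2 + σ y.2 = y.1
    abel

theorem st_sq (w : Submodule k E × Submodule k E) (x : E) (hx : x ∈ w.2) (c : k) :
    uS (k := k) (c • sq x) • bp w = bp w := by
  apply st_gen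
  intro f hf
  rw [LinearMap.smul_apply, sq_apply, (Submodule.mem_dualAnnihilator _).1 hf x hx, zero_smul,
    smul_zero]
  exact w.1.zero_mem

theorem st_mix (w : Submodule k E × Submodule k E) (hw : w.1 ≤ w.2) (a : E) (ha : a ∈ w.1)
    (x : E) (c : k) : uS (k := k) (c • (sq (a + x) - sq a - sq x)) • bp w = bp w := by
  apply st_gen
  intro f hf
  have h0 : f a = 0 := (Submodule.mem_dualAnnihilator _).1 hf a (hw ha)
  have h1 : (c • (sq (a + x) - sq a - sq x) : Dual k E →ₗ[k] E) f = (c * f x) • a := by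
    rw [LinearMap.smul_apply, LinearMap.sub_apply, LinearMap.sub_apply, sq_apply, sq_apply, sq_apply,
      map_add, h0, zero_add, zero_smul, sub_zero, smul_add, add_sub_cancel_right, smul_smul]
  rw [h1]
  exact w.1.smul_mem _ ha

end S

end SY.S1
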