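import Pool.Agent.Helper60.SY.Defs

/-!
Project SY (MP_0bd1d1_al), module S2: totally isotropic subspaces of `E × E^*` in the orbits of the base points
-/

namespace SY.S2

open QuadraticMap Module OG

section S

variable {k E : Type*} [Field k] [AddCommGroup E] [Module k E] {j : ℕ}

/-- a product of submodules is a product -/
def prodEq (A : Submodule k E) (B : Submodule k (Dual k E)) : ↥(A.prod B) ≃ₗ[k] (A × B) where
  toFun w := (⟨w.1.1, w.2.1⟩, ⟨w.1.2, w.2.2⟩)
  invFun w := ⟨(w.1.1, w.2.1), w.1.2, w.2.2⟩
  map_add' _ _ := rfl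
  map_smul' _ _ := rfl
  left_inv _ := rfl
  right_inv _ := rfl

theorem orbS [FiniteDimensional k E] (W : Submodule k (E × Dual k E)) (hW : W ∈ IsoT k E j) :
    ∃ w : Submodule k E × Submodule k E, w.1 ≤ w.2 ∧
      finrank k w.1 + (finrank k E - finrank k w.2) = j ∧
      ∃ σ ∈ SymS k E, W = uS σ • bp w := by
  obtain ⟨hWj, hWi⟩ := hW
  set A : Submodule k E := W.comap (LinearMap.inl k E (Dual k E)) with hA
  set B : Submodule k (Dual k E) := W.map (LinearMap.snd k E (Dual k E)) with hB
  set T : Submodule k E := B.dualCoannihilator with hT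
  have hTB : T.dualAnnihilator = B := Subspace.dualCoannihilator_dualAnnihilator_eq
  have hAT : A ≤ T := by
    intro x hx
    rw [hT, Submodule.mem_dualCoannihilator]
    intro f hf
    obtain ⟨⟨y, f'⟩, hy, hf'⟩ := (Submodule.mem_map).1 hf
    have hf'' : f' = f := hf'
    subst hf''
    have h1 := hWi (x, 0) hx (y, f') hy
    simpa [om] using h1
  -- the section
  let q : W →ₗ[k] B := (LinearMap.snd k E (Dual k E)).restrict (p := W) (q := B)
    (fun w hw => Submodule.mem_map_of_mem hw)
  have hq : LinearMap.range q = ⊤ := by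
    rw [LinearMap.range_eq_top]
    rintro ⟨f, hf⟩
    obtain ⟨w, hw, hwf⟩ := (Submodule.mem_map).1 hf
    exact ⟨⟨w, hw⟩, Subtype.ext hwf⟩
  have hfree : Module.Free k B := Module.Free.of_divisionRing k B
  have hproj : Module.Projective k B := Module.Projective.of_free
  obtain ⟨h, hh⟩ := q.exists_rightInverse_of_surjective hq
  have hh2 : ∀ f : B, (h f).1.2 = f.1 := by
    intro f
    have := congrArg (fun φ : B →ₗ[k] B => (φ f).1) hh
    exact this
  let t : B →ₗ[k] E := (LinearMap.fst k E (Dual k E)).comp (W.subtype.comp h)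
  have hht : ∀ f : B, (h f).1 = (t f, f.1) := fun f => Prod.ext rfl (hh2 f)
  have htW : ∀ f : B, (t f, f.1) ∈ W := fun f => by
    rw [← hht]
    exact (h f).2
  have hiso : ∀ f g : B, g.1 (t f) = f.1 (t g) := by
    intro f g
    have h1 := hWi _ (htW f) _ (htW g)
    simp only [om] at h1
    exact sub_eq_zero.1 h1
  obtain ⟨P, hPf⟩ : ∃ P : Dual k E →ₗ[k] B, ∀ f : B, P f.1 = f := by
    obtain ⟨C, hC⟩ := Submodule.exists_isCompl B
    exact ⟨B.projectionOnto C hC, fun f => Submodule.projectionOnto_apply_left hC f⟩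
  -- the bilinear form
  let tP : Dual k E →ₗ[k] E := t.comp P
  let S : Dual k E →ₗ[k] Dual k (Dual k E) := (Dual.eval k E).comp tP + tP.dualMap -
    ((B.subtype.comp P).dualMap).comp ((Dual.eval k E).comp tP)
  have hS : ∀ f g : Dual k E, S f g = g (t (P f)) + f (t (P g)) - (P g).1 (t (P f)) := fun f g => rfl
  let s : Dual k E →ₗ[k] E := ((Module.evalEquiv k E).symm : Dual k (Dual k E) →ₗ[k] E).comp S
  have hs : ∀ f g : Dual k E, g (s f) = g (t (P f)) + f (t (P g)) - (P g).1 (t (P f)) := by
    intro f g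
    rw [← hS]
    have h1 : Module.evalEquiv k E (s f) = S f := (Module.evalEquiv k E).apply_symm_apply (S f)
    rw [← h1]
    rfl
  have hsB : ∀ f : B, s f.1 = t f := by
    intro f
    apply (Module.evalEquiv k E).injective
    ext g
    show g (s f.1) = g (t f)
    rw [hs, hPf, hiso f (P g), add_sub_cancel_right]
  have hWeq : W = uS s • bp (A, T) := by
    ext ⟨x, f⟩
    rw [mem_smul]
    constructor
    · intro hx
      have hf : f ∈ B := Submodule.mem_map_of_mem (f := LinearMap.snd k E (Dual k E)) hx
      refine ⟨(x - t ⟨f, hf⟩, f), ⟨?_, ?_⟩, ?_⟩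
      · show (x - t ⟨f, hf⟩, (0 : Dual k E)) ∈ W
        have h1 := W.sub_mem hx (htW ⟨f, hf⟩)
        have h2 : ((x, f) : E × Dual k E) - (t ⟨f, hf⟩, f) = (x - t ⟨f, hf⟩, 0) := by
          ext <;> simp
        rw [← h2]
        exact h1
      · show f ∈ T.dualAnnihilator
        rw [hTB]
        exact hf
      · rw [uS_apply]
        have h1 := hsB ⟨f, hf⟩
        ext
        · show x - t ⟨f, hf⟩ + s f = x
          rw [h1]
          abel
        · rfl
    · rintro ⟨⟨a, g⟩, ⟨ha, hg⟩, he⟩
      rw [uS_apply] at he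
      have hg' : g ∈ B := by
        rw [← hTB]
        exact hg
      have h1 := hsB ⟨g, hg'⟩
      have h2 : (x, f) = (a, (0 : Dual k E)) + (t ⟨g, hg'⟩, g) := by
        rw [← he]
        show (a + s g, g) = _
        rw [h1]
        ext <;> simp
      rw [h2]
      exact W.add_mem ha (htW ⟨g, hg'⟩)
  refine ⟨(A, T), hAT, ?_, s, ?_, hWeq⟩
  · have h1 : finrank k W = finrank k (bp (A, T)) := by
      conv_lhs => rw [hWeq]
      exact LinearEquiv.finrank_map_eq (uS s) (bp (A, T))
    have h2 : finrank k (bp (A, T)) = finrank k A + finrank k T.dualAnnihilator := by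
      have hf1 : Module.Free k T.dualAnnihilator := Module.Free.of_divisionRing k T.dualAnnihilator
      have hf2 : Module.Finite k T.dualAnnihilator := by
        rw [hTB]
        exact Module.Finite.of_surjective q (LinearMap.range_eq_top.1 hq)
      rw [← Module.finrank_prod]
      exact (prodEq A T.dualAnnihilator).finrank_eq
    have h3 := Subspace.finrank_add_finrank_dualAnnihilator_eq T
    show finrank k A + (finrank k E - finrank k T) = j
    omega
  · intro f g
    rw [hs, hs, hiso (P f) (P g)]
    ring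

end S

end SY.S2
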