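import Pool.Agent.Helper60.SY.Defs

/-!
Project SY (MP_0bd1d1_al), module S3: the symmetric maps are spanned by the maps `sq x`.
-/

namespace SY.S3

open QuadraticMap Module OG

variable {k E : Type*} [Field k] [AddCommGroup E] [Module k E]

/-- The map `f ↦ f(x) y`. -/
def mm (x y : E) : Dual k E →ₗ[k] E := (Dual.eval k E x).smulRight y

theorem mm_apply (x y : E) (f : Dual k E) : mm x y f = f x • y := rfl

theorem mm_self (x : E) : (mm x x : Dual k E →ₗ[k] E) = sq x := rfl

theorem mm_add (x y : E) : (mm x y + mm y x : Dual k E →ₗ[k] E) = sq (x + y) - sq x - sq y := by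
  refine LinearMap.ext fun f => ?_
  rw [LinearMap.add_apply, LinearMap.sub_apply, LinearMap.sub_apply, mm_apply, mm_apply, sq_apply,
    sq_apply, sq_apply, map_add, add_smul, smul_add, smul_add]
  abel

theorem sq_mem_span (x : E) :
    (sq x : Dual k E →ₗ[k] E) ∈ Submodule.span k (Set.range (sq : E → (Dual k E →ₗ[k] E))) :=
  Submodule.subset_span ⟨x, rfl⟩

theorem sum_split {M : Type*} [AddCommMonoid M] {n : ℕ} (F : Fin n → Fin n → M) :
    ∑ i, ∑ j, F i j = (∑ i, ∑ j, if i < j then F i j + F j i else 0) + ∑ i, F i i := by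
  have h1 : ∀ i j, F i j = (if i < j then F i j else 0) + (if i = j then F i j else 0) +
      (if j < i then F i j else 0) := by
    intro i j
    rcases lt_trichotomy i j with h | h | h
    · rw [if_pos h, if_neg h.ne, if_neg h.le.not_gt, add_zero, add_zero]
    · subst h
      rw [if_neg (lt_irrefl i), if_pos rfl, zero_add, add_zero]
    · rw [if_neg h.le.not_gt, if_neg h.ne', if_pos h, zero_add, zero_add]
  have h2 : ∑ i, ∑ j, (if j < i then F i j else 0) = ∑ i, ∑ j, if i < j then F j i else 0 :=
    Finset.sum_comm
  have h3 : ∀ i : Fin n, (∑ j, if i = j then F i j else 0) = F i i := fun i => by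
    rw [Finset.sum_ite_eq, if_pos (Finset.mem_univ i)]
  have h4 : ∀ i j : Fin n, (if i < j then F i j + F j i else 0) =
      (if i < j then F i j else 0) + (if i < j then F j i else 0) := fun i j => by
    split_ifs
    · rfl
    · rw [add_zero]
  simp only [h4, Finset.sum_add_distrib]
  rw [← h2]
  calc ∑ i, ∑ j, F i j = ∑ i, ∑ j, ((if i < j then F i j else 0) + (if i = j then F i j else 0) +
        (if j < i then F i j else 0)) :=
        Finset.sum_congr rfl fun i _ => Finset.sum_congr rfl fun j _ => h1 i j
    _ = _ := by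
      simp only [Finset.sum_add_distrib, h3]
      rw [add_right_comm]

theorem span_sq [FiniteDimensional k E] :
    SymS k E ≤ Submodule.span k (Set.range (sq : E → (Dual k E →ₗ[k] E))) := by
  intro s hs
  have hs' : ∀ f g : Dual k E, g (s f) = f (s g) := hs
  set b := Module.finBasis k E with hb
  have key : s = ∑ i, ∑ j, (b.coord j (s (b.coord i))) • mm (b i) (b j) := by
    refine LinearMap.ext fun f => ?_
    have h1 : f = ∑ i, f (b i) • b.coord i := by
      refine b.ext fun j => ?_
      rw [LinearMap.sum_apply]
      simp [Finsupp.single_apply]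
    have h2 : s f = ∑ i, f (b i) • s (b.coord i) := by
      conv_lhs => rw [h1]
      rw [map_sum]
      exact Finset.sum_congr rfl fun i _ => by rw [map_smul]
    rw [h2, LinearMap.sum_apply]
    refine Finset.sum_congr rfl fun i _ => ?_
    rw [LinearMap.sum_apply]
    conv_lhs => rw [← b.sum_repr (s (b.coord i))]
    rw [Finset.smul_sum]
    refine Finset.sum_congr rfl fun j _ => ?_
    rw [LinearMap.smul_apply, mm_apply, smul_smul, smul_smul, Basis.coord_apply, mul_comm]
  rw [key, sum_split]
  refine Submodule.add_mem _ (Submodule.sum_mem _ fun i _ => Submodule.sum_mem _ fun j _ => ?_)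
    (Submodule.sum_mem _ fun i _ => ?_)
  · split_ifs
    · rw [hs' (b.coord j) (b.coord i), ← smul_add, mm_add]
      exact Submodule.smul_mem _ _ (Submodule.sub_mem _
        (Submodule.sub_mem _ (sq_mem_span _) (sq_mem_span _)) (sq_mem_span _))
    · exact Submodule.zero_mem _
  · rw [mm_self]
    exact Submodule.smul_mem _ _ (sq_mem_span _)

end SY.S3
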