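import Pool.Agent.Helper60.SY.Defs

/-!
Project SY (MP_0bd1d1_al), module S5: finitely many classes of quadratic forms (helper75).
-/

namespace SY.S5

open QuadraticMap Module OG

section S

variable {k E : Type*} [Field k] [AddCommGroup E] [Module k E] {j : ℕ}

open Classical in
/-- the class of a scalar: zero, nonzero square, nonsquare -/
noncomputable def cl (x : k) : Fin 3 := if x = 0 then 0 else if IsSquare x then 1 else 2

theorem cl_eq [Finite k] (x y : k) (h : cl x = cl y) : ∃ u : k, u ≠ 0 ∧ y = u * u * x := by
  unfold cl at h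
  by_cases hx : x = 0
  · rw [if_pos hx] at h
    by_cases hy : y = 0
    · exact ⟨1, one_ne_zero, by rw [hx, hy, mul_zero]⟩
    · rw [if_neg hy] at h
      split_ifs at h
      · exact absurd h (by decide)
      · exact absurd h (by decide)
  · rw [if_neg hx] at h
    by_cases hy : y = 0
    · rw [if_pos hy] at h
      split_ifs at h
      · exact absurd h (by decide)
      · exact absurd h (by decide)
    · rw [if_neg hy] at h
      refine OG.WA.sq_two x y hx hy ?_
      by_cases hsx : IsSquare x
      · by_cases hsy : IsSquare y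
        · exact hsx.mul hsy
        · rw [if_pos hsx, if_neg hsy] at h
          exact absurd h (by decide)
      · by_cases hsy : IsSquare y
        · rw [if_neg hsx, if_pos hsy] at h
          exact absurd h (by decide)
        · exact OG.WA.ns_mul x y hsx hsy

theorem quad_classes [Finite k] [FiniteDimensional k E] (h2 : (2 : k) ≠ 0) :
    ∃ c : QuadraticForm k E → (Fin (finrank k E) → Fin 3), ∀ q q' : QuadraticForm k E,
      c q = c q' → ∃ g : E ≃ₗ[k] E, ∀ x, q (g x) = q' x := by
  have : Invertible (2 : k) := invertibleOfNonzero h2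
  choose w he using fun q : QuadraticForm k E => QuadraticForm.equivalent_weightedSumSquares q
  refine ⟨fun q i => cl (w q i), fun q q' h => ?_⟩
  obtain ⟨e⟩ := he q
  obtain ⟨e'⟩ := he q'
  have h1 : ∀ i, ∃ u : k, u ≠ 0 ∧ w q' i = u * u * w q i := fun i => cl_eq _ _ (congrFun h i)
  choose u hu hw using h1
  let D : (Fin (finrank k E) → k) ≃ₗ[k] (Fin (finrank k E) → k) :=
    LinearEquiv.piCongrRight fun i => LinearEquiv.smulOfNeZero k k (u i) (hu i)
  have hD : ∀ x i, D x i = u i * x i := fun x i => rfl
  refine ⟨e'.toLinearEquiv.trans (D.trans e.toLinearEquiv.symm), fun x => ?_⟩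
  have h3 : ∀ y, q (e.toLinearEquiv.symm y) = weightedSumSquares k (w q) y := by
    intro y
    have h4 := e.map_app (e.toLinearEquiv.symm y)
    rw [← h4]
    congr 1
    exact e.toLinearEquiv.apply_symm_apply y
  have h5 : weightedSumSquares k (w q') (e' x) = q' x := e'.map_app x
  rw [LinearEquiv.trans_apply, LinearEquiv.trans_apply, h3, ← h5, weightedSumSquares_apply,
    weightedSumSquares_apply]
  refine Finset.sum_congr rfl fun i _ => ?_
  rw [hD, hw i, smul_eq_mul, smul_eq_mul]
  change w q i * (u i * e' x i * (u i * e' x i)) = _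
  ring

end S

end SY.S5
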