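import Pool.Agent.Helper60.SY.Defs

/-! MODULE SM of project SY (MP_0bd1d1_al): every symplectic space is a standard one. -/

set_option autoImplicit false

namespace SY.SM

open Module SY

variable {k X : Type*} [Field k] [AddCommGroup X] [Module k X]

theorem skew (w : X →ₗ[k] X →ₗ[k] k) (ha : ∀ x, w x x = 0) (x y : X) : w x y = - w y x := by
  have h := ha (x + y)
  rw [map_add w x y, LinearMap.add_apply, map_add (w x), map_add (w y), ha x, ha y, zero_add,
    add_zero] at h
  exact eq_neg_of_add_eq_zero_left h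

theorem exists_basis [FiniteDimensional k X] (w : X →ₗ[k] X →ₗ[k] k) (ha : ∀ x, w x x = 0) :
    ∀ (d : ℕ) (Y : Submodule k X), finrank k Y ≤ d →
      (∀ y ∈ Y, (∀ z ∈ Y, w y z = 0) → y = 0) →
      ∃ (n : ℕ) (e f : Fin n → X), (∀ i, e i ∈ Y) ∧ (∀ i, f i ∈ Y) ∧
        (∀ i j, w (e i) (e j) = 0) ∧ (∀ i j, w (f i) (f j) = 0) ∧
        (∀ i j, w (e i) (f j) = if i = j then 1 else 0) ∧
        Y ≤ Submodule.span k (Set.range e ∪ Set.range f) := by
  intro d
  induction d with
  | zero =>
    intro Y hY _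
    have h0 : Y = ⊥ := Submodule.finrank_eq_zero.1 (Nat.le_zero.1 hY)
    refine ⟨0, Fin.elim0, Fin.elim0, fun i => i.elim0, fun i => i.elim0, fun i => i.elim0,
      fun i => i.elim0, fun i => i.elim0, ?_⟩
    rw [h0]
    exact bot_le
  | succ d ih =>
    intro Y hY hn
    by_cases h0 : Y = ⊥
    · refine ⟨0, Fin.elim0, Fin.elim0, fun i => i.elim0, fun i => i.elim0, fun i => i.elim0,
        fun i => i.elim0, fun i => i.elim0, ?_⟩
      rw [h0]
      exact bot_le
    obtain ⟨e0, he0, hne⟩ := Submodule.exists_mem_ne_zero_of_ne_bot h0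
    have h1 : ∃ z ∈ Y, w e0 z ≠ 0 := by
      by_contra hcon
      push Not at hcon
      exact hne (hn e0 he0 hcon)
    obtain ⟨z, hz, hwz⟩ := h1
    obtain ⟨f0, hf0⟩ : ∃ f0 : X, f0 = (w e0 z)⁻¹ • z := ⟨_, rfl⟩
    have hf0Y : f0 ∈ Y := by
      rw [hf0]
      exact Y.smul_mem _ hz
    have hef : w e0 f0 = 1 := by
      rw [hf0, map_smul, smul_eq_mul, inv_mul_cancel₀ hwz]
    have hfe : w f0 e0 = -1 := by rw [skew w ha, hef]
    set Y' : Submodule k X := Y ⊓ (LinearMap.ker (w e0) ⊓ LinearMap.ker (w f0)) with hY'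
    have hmem : ∀ y, y ∈ Y' ↔ y ∈ Y ∧ w e0 y = 0 ∧ w f0 y = 0 := by
      intro y
      rw [hY', Submodule.mem_inf, Submodule.mem_inf, LinearMap.mem_ker, LinearMap.mem_ker]
    have hdec : ∀ y ∈ Y, y - (w y f0) • e0 - (w e0 y) • f0 ∈ Y' := by
      intro y hy
      rw [hmem]
      refine ⟨Y.sub_mem (Y.sub_mem hy (Y.smul_mem _ he0)) (Y.smul_mem _ hf0Y), ?_, ?_⟩
      · rw [map_sub, map_sub, map_smul, map_smul, ha e0, hef, smul_zero, smul_eq_mul, mul_one,
          sub_zero, sub_self]
      · rw [map_sub, map_sub, map_smul, map_smul, ha f0, hfe, smul_zero, smul_eq_mul, sub_zero,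
          skew w ha f0 y]
        ring
    have hlt : Y' < Y := by
      refine lt_of_le_of_ne inf_le_left ?_
      intro heq
      have h2 : e0 ∈ Y' := heq ▸ he0
      have h3 := ((hmem e0).1 h2).2.2
      rw [hfe] at h3
      exact neg_ne_zero.2 one_ne_zero h3
    have hfin : finrank k Y' ≤ d := by
      have := Submodule.finrank_lt_finrank_of_lt hlt
      omega
    have hn' : ∀ y ∈ Y', (∀ z ∈ Y', w y z = 0) → y = 0 := by
      intro y hy hyz
      obtain ⟨hyY, hy1, hy2⟩ := (hmem y).1 hy
      refine hn y hyY fun z hz => ?_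
      have h2 := hyz _ (hdec z hz)
      rw [map_sub, map_sub, map_smul, map_smul, skew w ha y e0, skew w ha y f0, hy1, hy2] at h2
      simpa using h2
    obtain ⟨n, e, f, he, hf, hee, hff, hef', hsp⟩ := ih Y' hfin hn'
    have he1 : ∀ i, w e0 (e i) = 0 := fun i => ((hmem _).1 (he i)).2.1
    have he2 : ∀ i, w f0 (e i) = 0 := fun i => ((hmem _).1 (he i)).2.2
    have hf1 : ∀ i, w e0 (f i) = 0 := fun i => ((hmem _).1 (hf i)).2.1
    have hf2 : ∀ i, w f0 (f i) = 0 := fun i => ((hmem _).1 (hf i)).2.2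
    refine ⟨n + 1, Fin.cons e0 e, Fin.cons f0 f, ?_, ?_, ?_, ?_, ?_, ?_⟩
    · intro i
      refine Fin.cases ?_ (fun i => ?_) i
      · rw [Fin.cons_zero]; exact he0
      · rw [Fin.cons_succ]; exact ((hmem _).1 (he i)).1
    · intro i
      refine Fin.cases ?_ (fun i => ?_) i
      · rw [Fin.cons_zero]; exact hf0Y
      · rw [Fin.cons_succ]; exact ((hmem _).1 (hf i)).1
    · intro i j
      refine Fin.cases ?_ (fun i => ?_) i <;> refine Fin.cases ?_ (fun j => ?_) j
      · rw [Fin.cons_zero]; exact ha e0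
      · rw [Fin.cons_zero, Fin.cons_succ]; exact he1 j
      · rw [Fin.cons_zero, Fin.cons_succ, skew w ha, he1, neg_zero]
      · rw [Fin.cons_succ, Fin.cons_succ]; exact hee i j
    · intro i j
      refine Fin.cases ?_ (fun i => ?_) i <;> refine Fin.cases ?_ (fun j => ?_) j
      · rw [Fin.cons_zero]; exact ha f0
      · rw [Fin.cons_zero, Fin.cons_succ]; exact hf2 j
      · rw [Fin.cons_zero, Fin.cons_succ, skew w ha, hf2, neg_zero]
      · rw [Fin.cons_succ, Fin.cons_succ]; exact hff i j
    · intro i j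
      refine Fin.cases ?_ (fun i => ?_) i <;> refine Fin.cases ?_ (fun j => ?_) j
      · rw [Fin.cons_zero, Fin.cons_zero, if_pos rfl]; exact hef
      · rw [Fin.cons_zero, Fin.cons_succ, if_neg (Fin.succ_ne_zero j).symm]; exact hf1 j
      · rw [Fin.cons_zero, Fin.cons_succ, if_neg (Fin.succ_ne_zero i), skew w ha, he2, neg_zero]
      · rw [Fin.cons_succ, Fin.cons_succ, hef']
        by_cases hij : i = j
        · rw [if_pos hij, if_pos (congrArg Fin.succ hij)]
        · rw [if_neg hij, if_neg (fun h => hij (Fin.succ_injective _ h))]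
    · intro y hy
      set S : Submodule k X := Submodule.span k
        (Set.range (Fin.cons e0 e : Fin (n + 1) → X) ∪
          Set.range (Fin.cons f0 f : Fin (n + 1) → X)) with hS
      have hS1 : e0 ∈ S := Submodule.subset_span (Or.inl ⟨0, Fin.cons_zero _ _⟩)
      have hS2 : f0 ∈ S := Submodule.subset_span (Or.inr ⟨0, Fin.cons_zero _ _⟩)
      have hS3 : Submodule.span k (Set.range e ∪ Set.range f) ≤ S := by
        apply Submodule.span_le.2
        rintro x (⟨i, rfl⟩ | ⟨i, rfl⟩)
        · exact Submodule.subset_span (Or.inl ⟨i.succ, Fin.cons_succ _ _ _⟩)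
        · exact Submodule.subset_span (Or.inr ⟨i.succ, Fin.cons_succ _ _ _⟩)
      have h2 := S.add_mem (S.add_mem (hS3 (hsp (hdec y hy))) (S.smul_mem (w e0 y) hS2))
        (S.smul_mem (w y f0) hS1)
      have h3 : y - (w y f0) • e0 - (w e0 y) • f0 + (w e0 y) • f0 + (w y f0) • e0 = y := by abel
      rwa [h3] at h2

theorem exists_model [FiniteDimensional k X] (w : X →ₗ[k] X →ₗ[k] k) (ha : ∀ x, w x x = 0)
    (hn : ∀ x, (∀ y, w x y = 0) → x = 0) :
    ∃ (n : ℕ) (φ : X ≃ₗ[k] ((Fin n → k) × Dual k (Fin n → k))),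
      ∀ u v, om (φ u) (φ v) = w u v := by
  classical
  obtain ⟨n, e, f, -, -, hee, hff, hef, hsp⟩ := exists_basis w ha (finrank k (⊤ : Submodule k X)) ⊤
    le_rfl (fun y _ h => hn y fun z => h z trivial)
  let ψ : ((Fin n → k) × Dual k (Fin n → k)) →ₗ[k] X :=
    { toFun := fun p => ∑ i, p.1 i • e i + ∑ i, p.2 (Pi.single i 1) • f i
      map_add' := by
        intro p q
        simp only [Prod.fst_add, Prod.snd_add, Pi.add_apply, LinearMap.add_apply, add_smul,
          Finset.sum_add_distrib]
        abel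
      map_smul' := by
        intro c p
        simp only [Prod.smul_fst, Prod.smul_snd, Pi.smul_apply, LinearMap.smul_apply, smul_eq_mul,
          RingHom.id_apply, smul_add, Finset.smul_sum, mul_smul] }
  have hψ : ∀ p, ψ p = ∑ i, p.1 i • e i + ∑ i, p.2 (Pi.single i 1) • f i := fun p => rfl
  have hfe : ∀ i j, w (f i) (e j) = if i = j then -1 else 0 := by
    intro i j
    rw [skew w ha, hef]
    by_cases h : i = j
    · rw [if_pos h, if_pos h.symm]
    · rw [if_neg h, if_neg (Ne.symm h), neg_zero]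
  have hw1 : ∀ p i, w (ψ p) (f i) = p.1 i := by
    intro p i
    rw [hψ, map_add, LinearMap.add_apply, map_sum, map_sum, LinearMap.sum_apply,
      LinearMap.sum_apply, Finset.sum_eq_single i, Finset.sum_eq_zero, add_zero, map_smul,
      LinearMap.smul_apply, hef, if_pos rfl, smul_eq_mul, mul_one]
    · intro j _
      rw [map_smul, LinearMap.smul_apply, hff, smul_zero]
    · intro j _ hj
      rw [map_smul, LinearMap.smul_apply, hef, if_neg hj, smul_zero]
    · intro h
      exact absurd (Finset.mem_univ i) h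
  have hw2 : ∀ p i, w (ψ p) (e i) = - p.2 (Pi.single i 1) := by
    intro p i
    rw [hψ, map_add, LinearMap.add_apply, map_sum, map_sum, LinearMap.sum_apply,
      LinearMap.sum_apply, Finset.sum_eq_zero, zero_add, Finset.sum_eq_single i, map_smul,
      LinearMap.smul_apply, hfe, if_pos rfl, smul_eq_mul, mul_neg, mul_one]
    · intro j _ hj
      rw [map_smul, LinearMap.smul_apply, hfe, if_neg hj, smul_zero]
    · intro h
      exact absurd (Finset.mem_univ i) h
    · intro j _
      rw [map_smul, LinearMap.smul_apply, hee, smul_zero]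
  have hexp : ∀ (g : Dual k (Fin n → k)) (x : Fin n → k), g x = ∑ i, x i * g (Pi.single i 1) := by
    intro g x
    conv_lhs => rw [← Finset.univ_sum_single x]
    rw [map_sum]
    refine Finset.sum_congr rfl fun i _ => ?_
    have h : (Pi.single i (x i) : Fin n → k) = x i • Pi.single i 1 := by
      rw [← Pi.single_smul, smul_eq_mul, mul_one]
    rw [h, map_smul, smul_eq_mul]
  have hom : ∀ p q, w (ψ p) (ψ q) = om p q := by
    intro p q
    rw [hψ q, map_add, map_sum, map_sum]
    unfold om
    rw [hexp q.2 p.1, hexp p.2 q.1, add_comm, sub_eq_add_neg, ← Finset.sum_neg_distrib]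
    congr 1
    · refine Finset.sum_congr rfl fun i _ => ?_
      rw [map_smul, hw1, smul_eq_mul, mul_comm]
    · refine Finset.sum_congr rfl fun i _ => ?_
      rw [map_smul, hw2, smul_eq_mul, mul_neg]
  have hinj : Function.Injective ψ := by
    rw [← LinearMap.ker_eq_bot, LinearMap.ker_eq_bot']
    intro p hp
    refine Prod.ext ?_ ?_
    · funext i
      rw [← hw1 p i, hp, map_zero]
      rfl
    · apply LinearMap.pi_ext'
      intro i
      apply LinearMap.ext_ring
      have h := hw2 p i
      rw [hp, map_zero, LinearMap.zero_apply] at h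
      change p.2 (Pi.single i 1) = 0
      exact neg_eq_zero.1 h.symm
  have hsurj : Function.Surjective ψ := by
    rw [← LinearMap.range_eq_top, eq_top_iff]
    refine hsp.trans (Submodule.span_le.2 ?_)
    rintro x (⟨i, rfl⟩ | ⟨i, rfl⟩)
    · refine ⟨(Pi.single i 1, 0), ?_⟩
      rw [hψ, Finset.sum_eq_single i]
      · simp
      · intro j _ hj
        change (Pi.single i 1 : Fin n → k) j • e j = 0
        rw [Pi.single_eq_of_ne hj, zero_smul]
      · intro h
        exact absurd (Finset.mem_univ i) h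
    · refine ⟨(0, LinearMap.proj i), ?_⟩
      rw [hψ]
      simp only [Pi.zero_apply, zero_smul, Finset.sum_const_zero, zero_add, LinearMap.proj_apply]
      rw [Finset.sum_eq_single i]
      · rw [Pi.single_eq_same, one_smul]
      · intro j _ hj
        rw [Pi.single_eq_of_ne (Ne.symm hj), zero_smul]
      · intro h
        exact absurd (Finset.mem_univ i) h
  let φ := LinearEquiv.ofBijective ψ ⟨hinj, hsurj⟩
  refine ⟨n, φ.symm, fun u v => ?_⟩
  rw [← hom]
  have h1 : ∀ u, ψ (φ.symm u) = u := fun u => φ.apply_symm_apply u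
  rw [h1, h1]

end SY.SM
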