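import Pool.Agent.Helper60.SY.DMain
import Pool.Agent.Helper60.SY.S1
import Pool.Agent.Helper60.SY.S2
import Pool.Agent.Helper60.SY.S3
import Pool.Agent.Helper60.SY.S5

/-!
Project SY (MP_0bd1d1_al): the Siegel unipotent radical.
-/

namespace SY

open QuadraticMap Module OG
open SY.D1 SY.S1 SY.S2 SY.S3 SY.S5

variable {k E : Type*} [Field k] [AddCommGroup E] [Module k E]

section form

/-- The symmetric map `f ↦ f(x) y + f(y) x`. -/
def mx (x y : E) : Dual k E →ₗ[k] E := sq (x + y) - sq x - sq y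

theorem mx_apply (x y : E) (f : Dual k E) : mx x y f = f x • y + f y • x := by
  unfold mx
  simp only [LinearMap.sub_apply, sq_apply, map_add]
  module

theorem mx_mem (x y : E) : mx x y ∈ SymS k E :=
  Submodule.sub_mem _ (Submodule.sub_mem _ (sq_mem _) (sq_mem _)) (sq_mem _)

/-- The quadratic form of a functional on the symmetric maps. -/
def QF (l : Dual k ↥(SymS k E)) : QuadraticForm k E :=
  QuadraticMap.ofPolar (fun x => l ⟨sq x, sq_mem x⟩)
    (by
      intro a x
      rw [← smul_eq_mul, smul_assoc, ← map_smul, ← map_smul]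
      congr 1
      apply Subtype.ext
      ext f
      simp only [SetLike.mk_smul_mk, LinearMap.smul_apply, sq_apply, map_smul, smul_eq_mul]
      module)
    (by
      intro x x' y
      simp only [polar]
      rw [← map_sub, ← map_sub, ← map_sub, ← map_sub, ← map_sub, ← map_sub, ← map_add]
      congr 1
      apply Subtype.ext
      ext f
      simp only [AddSubgroupClass.coe_sub, Submodule.coe_add, LinearMap.sub_apply,
        LinearMap.add_apply, sq_apply, map_add]
      module)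
    (by
      intro a x y
      simp only [polar]
      rw [← map_sub, ← map_sub, ← map_sub, ← map_sub, ← map_smul]
      congr 1
      apply Subtype.ext
      ext f
      simp only [AddSubgroupClass.coe_sub, Submodule.coe_smul, LinearMap.sub_apply,
        LinearMap.smul_apply, sq_apply, map_add, map_smul, smul_eq_mul]
      module)

theorem QF_apply (l : Dual k ↥(SymS k E)) (x : E) : QF l x = l ⟨sq x, sq_mem x⟩ := rfl

theorem QF_polar (l : Dual k ↥(SymS k E)) (x y : E) :
    polar (QF l) x y = l ⟨mx x y, mx_mem x y⟩ := by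
  unfold polar
  rw [QF_apply, QF_apply, QF_apply, ← map_sub, ← map_sub]
  rfl

variable [FiniteDimensional k E]

/-- Conjugation by the Levi subgroup on the symmetric maps. -/
def cj (g : E ≃ₗ[k] E) (σ : ↥(SymS k E)) : ↥(SymS k E) :=
  ⟨(g : E →ₗ[k] E) ∘ₗ σ.1 ∘ₗ (g : E →ₗ[k] E).dualMap, conj_mem g σ.1 σ.2⟩

theorem cj_eq (g : E ≃ₗ[k] E) (l l₀ : Dual k ↥(SymS k E))
    (h : ∀ x, QF l (g x) = QF l₀ x) (σ : ↥(SymS k E)) : l (cj g σ) = l₀ σ := by
  have key : ∀ τ ∈ Submodule.span k (Set.range (sq : E → (Dual k E →ₗ[k] E))),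
      ∀ hτ : τ ∈ SymS k E, l (cj g ⟨τ, hτ⟩) = l₀ ⟨τ, hτ⟩ := by
    intro τ hτ
    induction hτ using Submodule.span_induction with
    | mem x hx =>
      obtain ⟨y, rfl⟩ := hx
      intro hτ
      have h1 : cj g ⟨sq y, hτ⟩ = ⟨sq (g y), sq_mem (g y)⟩ := Subtype.ext (sq_conj g y)
      rw [h1, ← QF_apply, h y, QF_apply]
    | zero =>
      intro hτ
      have h1 : cj g ⟨0, hτ⟩ = 0 := by
        apply Subtype.ext
        ext f
        simp [cj]
      have h2 : (⟨0, hτ⟩ : ↥(SymS k E)) = 0 := rfl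
      rw [h1, h2, map_zero, map_zero]
    | add x y hx hy ihx ihy =>
      intro hτ
      have hxm : x ∈ SymS k E := by
        refine (Submodule.span_le.2 ?_ : Submodule.span k (Set.range sq) ≤ SymS k E) hx
        rintro _ ⟨z, rfl⟩
        exact sq_mem z
      have hym : y ∈ SymS k E := by
        refine (Submodule.span_le.2 ?_ : Submodule.span k (Set.range sq) ≤ SymS k E) hy
        rintro _ ⟨z, rfl⟩
        exact sq_mem z
      have h1 : cj g ⟨x + y, hτ⟩ = cj g ⟨x, hxm⟩ + cj g ⟨y, hym⟩ := by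
        apply Subtype.ext
        ext f
        simp [cj]
      have h2 : (⟨x + y, hτ⟩ : ↥(SymS k E)) = ⟨x, hxm⟩ + ⟨y, hym⟩ := rfl
      rw [h1, h2, map_add, map_add, ihx hxm, ihy hym]
    | smul c x hx ihx =>
      intro hτ
      have hxm : x ∈ SymS k E := by
        refine (Submodule.span_le.2 ?_ : Submodule.span k (Set.range sq) ≤ SymS k E) hx
        rintro _ ⟨z, rfl⟩
        exact sq_mem z
      have h1 : cj g ⟨c • x, hτ⟩ = c • cj g ⟨x, hxm⟩ := by
        apply Subtype.ext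
        ext f
        simp [cj]
      have h2 : (⟨c • x, hτ⟩ : ↥(SymS k E)) = c • ⟨x, hxm⟩ := rfl
      rw [h1, h2, map_smul, map_smul, ihx hxm]
  exact key σ.1 (span_sq σ.2) σ.2

end form

section main

variable {K R : Type*} [Field K] [CommRing R] [IsDomain R] [Algebra R K] [IsFractionRing R K]
  {ψ : AddChar k R} [FiniteDimensional k E]

/-- The Siegel unipotent subgroup. -/
def eS (σ : ↥(SymS k E)) : (E × Dual k E) ≃ₗ[k] (E × Dual k E) := uS σ.1

theorem WS_conj (g : E ≃ₗ[k] E) (l l₀ : Dual k ↥(SymS k E))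
    (h : ∀ x, QF l (g x) = QF l₀ x) {f : Submodule k (E × Dual k E) → K}
    (hf : f ∈ Wt K (eS (k := k) (E := E)) ψ l) :
    act (gS g)⁻¹ f ∈ Wt K (eS (k := k) (E := E)) ψ l₀ :=
  Wt_conj (gS g) (cj g) (fun σ => gS_conj g σ.1) (cj_eq g l l₀ h) hf

theorem vanishS {j : ℕ} (hψ : ∃ c, ψ c ≠ 1) (l : Dual k ↥(SymS k E))
    {f : Submodule k (E × Dual k E) → K} (hf : f ∈ Wt K (eS (k := k) (E := E)) ψ l)
    (hs : f ∈ supS R K (IsoT k E j))
    (h0 : ∀ a < finrank k E + 1, ∀ w ∈ PK (QF l) ⊤ a (finrank k E - (j - a)), f (bp w) = 0) :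
    f = 0 := by
  funext W
  by_cases hW : W ∈ IsoT k E j
  · obtain ⟨w, hle, hdim, σ, hσ, rfl⟩ := orbS W hW
    have h1 := Wt_translate hf ⟨σ, hσ⟩ (bp w)
    apply h1
    by_contra hne
    have hsq : ∀ x ∈ w.2, QF l x = 0 := by
      intro x hx
      rw [QF_apply]
      refine Wt_zero_on hψ hf (bp w) hne (Submodule.span k {⟨sq x, sq_mem x⟩}) ?_ _
        (Submodule.mem_span_singleton_self _)
      intro v hv
      obtain ⟨c, rfl⟩ := Submodule.mem_span_singleton.1 hv
      exact st_sq w x hx c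
    have hmx : ∀ a ∈ w.1, ∀ x, polar (QF l) a x = 0 := by
      intro a ha x
      rw [QF_polar]
      refine Wt_zero_on hψ hf (bp w) hne (Submodule.span k {⟨mx a x, mx_mem a x⟩}) ?_ _
        (Submodule.mem_span_singleton_self _)
      intro v hv
      obtain ⟨c, rfl⟩ := Submodule.mem_span_singleton.1 hv
      exact st_mix w hle a ha x c
    have ha : finrank k w.1 ≤ finrank k E := Submodule.finrank_le _
    have ht : finrank k w.2 ≤ finrank k E := Submodule.finrank_le _
    apply hne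
    refine h0 (finrank k w.1) (by omega) w ⟨hle, le_top, rfl, by omega, hsq, ?_⟩
    intro x hx y _
    exact hmx x hx y
  · exact hs W hW

theorem Bd_iUnion {Ω G : Type*} [Group G] [MulAction G Ω] [IsLocalRing R] {H : Set G}
    (S : ℕ → Set Ω) (n N : ℕ) (hS : ∀ i < N, Stb H (S i)) (hB : ∀ i < N, Bd R K H (S i) n) :
    Stb H {w | ∃ i < N, w ∈ S i} ∧ Bd R K H {w | ∃ i < N, w ∈ S i} (N * n) := by
  induction N with
  | zero =>
    have h : {w | ∃ i < 0, w ∈ S i} = (∅ : Set Ω) := by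
      ext w
      simp
    rw [h, zero_mul]
    exact ⟨fun g _ w => by simp, Bd_empty⟩
  | succ N ih =>
    obtain ⟨h1, h2⟩ := ih (fun i hi => hS i (Nat.lt_succ_of_lt hi))
      (fun i hi => hB i (Nat.lt_succ_of_lt hi))
    have h : {w | ∃ i < N + 1, w ∈ S i} = {w | ∃ i < N, w ∈ S i} ∪ S N := by
      ext w
      constructor
      · rintro ⟨i, hi, hw⟩
        rcases Nat.lt_succ_iff_lt_or_eq.1 hi with h3 | h3
        · exact Or.inl ⟨i, h3, hw⟩
        · right
          rw [← h3]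
          exact hw
      · rintro (⟨i, hi, hw⟩ | hw)
        · exact ⟨i, Nat.lt_succ_of_lt hi, hw⟩
        · exact ⟨N, Nat.lt_succ_self N, hw⟩
    rw [h, Nat.succ_mul]
    exact ⟨Stb_un h1 (hS N (Nat.lt_succ_self N)), Bd_union h1 h2 (hB N (Nat.lt_succ_self N))⟩

theorem Bd_S [ValuationRing R] [Finite k] (h2 : (2 : k) ≠ 0) (hψ : ∃ c, ψ c ≠ 1)
    (hq : IsUnit ((Nat.card k : ℕ) : R)) (j : ℕ) :
    Bd R K (SpG k E : Set ((E × Dual k E) ≃ₗ[k] (E × Dual k E))) (IsoT k E j)
      ((finrank k E + 1) * 24 ^ finrank k E) := by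
  classical
  have : Finite E := Module.finite_of_finite k
  have hfD : Finite (Dual k E) := Module.finite_of_finite k
  have hfL : Finite (Dual k E →ₗ[k] E) := Module.finite_of_finite k
  obtain ⟨cl, hcl⟩ := quad_classes (k := k) (E := E) h2
  have hu : IsUnit ((Nat.card (Dual k ↥(SymS k E)) : ℕ) : R) := by
    rw [Module.natCard_eq_pow_finrank (K := k), Nat.cast_pow]
    exact hq.pow _
  have hadd : ∀ σ τ : ↥(SymS k E), eS (σ + τ) = eS σ * eS τ := fun σ τ => uS_add σ.1 τ.1
  have heH : ∀ σ : ↥(SymS k E), eS σ ∈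
      (SpG k E : Set ((E × Dual k E) ≃ₗ[k] (E × Dual k E))) := fun σ => uS_mem σ.1 σ.2
  let L : (Fin (finrank k E) → Fin 3) → Dual k ↥(SymS k E) := fun c =>
    if h : ∃ l, cl (QF l) = c then h.choose else 0
  have hL : ∀ l, cl (QF (L (cl (QF l)))) = cl (QF l) := by
    intro l
    have hex : ∃ l', cl (QF l') = cl (QF l) := ⟨l, rfl⟩
    have : L (cl (QF l)) = hex.choose := dif_pos hex
    rw [this]
    exact hex.choose_spec
  have hOD : ∀ l : Dual k ↥(SymS k E), OD (QF l) ⊤ ⊥ := by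
    intro l
    refine ⟨isCompl_top_bot, ?_⟩
    intro y _ z hz
    rw [(Submodule.mem_bot k).1 hz, polar_zero_right]
  have main := Bd_clifford (K := K) (R := R) (S := IsoT k E j) eS hadd ψ hψ hu heH
    (Finset.univ : Finset (Fin (finrank k E) → Fin 3)) L
    (fun _ => (finrank k E + 1) * 8 ^ finrank k E) ?_ ?_
  · refine Bd_mono main subset_rfl subset_rfl ?_
    rw [Finset.sum_const, Finset.card_univ, Fintype.card_fun, Fintype.card_fin,
      Fintype.card_fin, smul_eq_mul]
    have : (24 : ℕ) ^ finrank k E = 3 ^ finrank k E * 8 ^ finrank k E := by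
      rw [← mul_pow]
      norm_num
    rw [this]
    apply le_of_eq
    ring
  · intro c _
    set l := L c with hl
    have hst : ∀ i, Stb (GD (QF l) ⊤ ⊥) (PK (QF l) ⊤ i (finrank k E - (j - i))) :=
      fun i => PK_stb
    obtain ⟨hst2, hB2⟩ := Bd_iUnion (R := R) (K := K) (H := GD (QF l) ⊤ ⊥)
      (fun i => PK (QF l) ⊤ i (finrank k E - (j - i))) (8 ^ finrank k E) (finrank k E + 1)
      (fun i _ => hst i)
      (fun i _ => Bd_D hψ hq (finrank k E) ⊤ ⊥ (hOD l) (finrank_top k E) i _)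
    have hB3 := Bd_transport (gS (k := k) (E := E)) bp hst2
      (fun g _ w _ => (bp_smul g w).symm) hB2
    refine ⟨_, _, hB3, ?_, ?_, ?_, ?_⟩
    · rintro _ ⟨g, _, rfl⟩
      exact gS_mem g
    · rintro _ ⟨g, hg, rfl⟩ W
      constructor
      · rintro ⟨w, hw, hwW⟩
        refine ⟨g⁻¹ • w, (Stb_inv hst2 hg w).2 hw, ?_⟩
        rw [← bp_smul, gS_inv, hwW, inv_smul_smul]
      · rintro ⟨w, hw, rfl⟩
        exact ⟨g • w, (hst2 g hg w).2 hw, (bp_smul g w).symm⟩
    · rintro _ ⟨g, hg, rfl⟩ f hf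
      have hgi : g⁻¹ ∈ GD (QF l) ⊤ ⊥ := GD_inv g hg
      have h3 := WS_conj g⁻¹ l l hgi.1 hf
      rw [gS_inv, inv_inv] at h3
      exact h3
    · intro f hf hs h0
      refine vanishS hψ l hf hs ?_
      intro a ha w hw
      exact h0 _ ⟨w, ⟨a, ha, hw⟩, rfl⟩
  · intro l
    right
    obtain ⟨g, hg⟩ := hcl (QF l) (QF (L (cl (QF l)))) (hL l).symm
    exact ⟨cl (QF l), Finset.mem_univ _, gS g, gS_mem g, inv_mem (gS_mem g),
      fun f hf => WS_conj g l _ hg hf⟩

end main

end SY
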