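import Pool.Agent.Helper60.SY.Defs

/-!
Project SY (MP_0bd1d1_al): transport between different groups and sets.
-/

namespace SY

open OG

section

variable {Ω₁ Ω₂ E₁ E₂ K R : Type*} [Group E₁] [MulAction E₁ Ω₁] [Group E₂] [MulAction E₂ Ω₂]
  [Field K] [CommRing R] [Algebra R K]

open Classical in
/-- Pull back along `φ` on `T`. -/
noncomputable def pull2 (R : Type*) {Ω₁ Ω₂ K : Type*} [Field K] [CommRing R] [Algebra R K]
    (φ : Ω₁ → Ω₂) (T : Set Ω₁) : (Ω₂ → K) →ₗ[R] (Ω₁ → K) where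
  toFun f := fun w => if w ∈ T then f (φ w) else 0
  map_add' f f' := by
    funext w
    by_cases h : w ∈ T <;> simp [h]
  map_smul' a f := by
    funext w
    by_cases h : w ∈ T <;> simp [h]

theorem pull2_mem {φ : Ω₁ → Ω₂} {T : Set Ω₁} (f : Ω₂ → K) {w : Ω₁} (h : w ∈ T) :
    pull2 R φ T f w = f (φ w) := by
  simp [pull2, h]

theorem pull2_not {φ : Ω₁ → Ω₂} {T : Set Ω₁} (f : Ω₂ → K) {w : Ω₁} (h : w ∉ T) :
    pull2 R φ T f w = 0 := by
  simp [pull2, h]

theorem Bd_transport [IsLocalRing R] {H : Set E₁} {S : Set Ω₁} {n : ℕ} (θ : E₁ → E₂)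
    (φ : Ω₁ → Ω₂) (hS : Stb H S) (he : ∀ g ∈ H, ∀ w ∈ S, φ (g • w) = θ g • φ w)
    (h : Bd R K H S n) : Bd R K (θ '' H) (φ '' S) n := by
  intro N hN r
  have hinj : ∀ i, ∀ f ∈ N i, pull2 R φ S f = 0 → f = 0 := by
    intro i f hf h0
    funext w
    by_cases hw : w ∈ φ '' S
    · obtain ⟨v, hv, rfl⟩ := hw
      have := congrFun h0 v
      rw [pull2_mem _ hv] at this
      exact this
    · exact hN.supp i f hf w hw
  refine steps_le_one N (fun i => (N i).map (pull2 R φ S)) n r ?_ (h _ ?_ r)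
  · intro i hA
    apply le_antisymm (hN.mono (Nat.le_succ i))
    intro x hx
    have hA' : (N i).map (pull2 R φ S) = (N (i + 1)).map (pull2 R φ S) := hA
    have hx1 : pull2 R φ S x ∈ (N i).map (pull2 R φ S) := by
      rw [hA']
      exact Submodule.mem_map_of_mem hx
    obtain ⟨y, hy, hyx⟩ := (Submodule.mem_map).1 hx1
    have hy' := hN.mono (Nat.le_succ i) hy
    have := hinj (i + 1) (x - y) (Submodule.sub_mem _ hx hy') (by rw [map_sub, hyx, sub_self])
    rw [sub_eq_zero] at this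
    rw [this]
    exact hy
  · refine ⟨?_, ?_, ?_, ?_⟩
    · intro i j hij
      exact Submodule.map_mono (hN.mono hij)
    · intro i f hf w hw
      obtain ⟨y, hy, rfl⟩ := (Submodule.mem_map).1 hf
      exact pull2_not _ hw
    · intro i a ha f hf
      obtain ⟨y, hy, rfl⟩ := (Submodule.mem_map).1 hf
      rw [← map_smul]
      exact Submodule.mem_map_of_mem (hN.red i a ha y hy)
    · intro g hg i f hf
      obtain ⟨y, hy, rfl⟩ := (Submodule.mem_map).1 hf
      have : act g (pull2 R φ S y) = pull2 R φ S (act (θ g) y) := by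
        funext w
        rw [act_apply]
        by_cases hw : w ∈ S
        · have hw' := (Stb_inv hS hg w).2 hw
          rw [pull2_mem _ hw', pull2_mem _ hw, act_apply]
          have := he g hg _ hw'
          rw [smul_inv_smul] at this
          rw [this, inv_smul_smul]
        · rw [pull2_not _ (fun h' => hw ((Stb_inv hS hg w).1 h')), pull2_not _ hw]
      rw [this]
      exact Submodule.mem_map_of_mem (hN.stab _ ⟨g, hg, rfl⟩ i y hy)

end

section

variable {Ω E K R : Type*} [Group E] [MulAction E Ω] [Field K] [CommRing R] [IsLocalRing R]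
  [Algebra R K] {H : Set E} {S : Set Ω} {n : ℕ}

theorem Bd_im (φ : Ω → Ω) (hS : Stb H S) (he : ∀ g ∈ H, ∀ w ∈ S, φ (g • w) = g • φ w)
    (h : Bd R K H S n) : Bd R K H (φ '' S) n :=
  Bd_image φ hS he h

theorem Stb_image (φ : Ω → Ω) (hS : Stb H S) (he : ∀ g ∈ H, ∀ w, φ (g • w) = g • φ w)
    (he' : ∀ g ∈ H, ∀ w, φ (g⁻¹ • w) = g⁻¹ • φ w) : Stb H (φ '' S) := by
  intro g hg w
  constructor
  · rintro ⟨A, hA, hAw⟩
    refine ⟨g⁻¹ • A, (Stb_inv hS hg A).2 hA, ?_⟩
    rw [he' g hg, hAw, inv_smul_smul]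
  · rintro ⟨A, hA, rfl⟩
    exact ⟨g • A, (hS g hg A).2 hA, he g hg A⟩

theorem Stb_un {S' : Set Ω} (h : Stb H S) (h' : Stb H S') : Stb H (S ∪ S') := by
  intro g hg w
  rw [Set.mem_union, Set.mem_union, h g hg w, h' g hg w]

theorem Stb_mn {H' : Set E} (h : Stb H S) (hH : H' ⊆ H) : Stb H' S :=
  fun g hg => h g (hH hg)

end

end SY
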